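import Mathlib

/-!
# Some subgroups of `GL₃(F₃)`
-/

set_option autoImplicit false

namespace Pool.Agent.TH12.Blk.GL33

open Matrix

/-- The group `GL₃(F₃)`. -/
abbrev G := GL (Fin 3) (ZMod 3)

/-- `diag(-1,-1,1)` -/
def z : G := ⟨!![2,0,0;0,2,0;0,0,1], !![2,0,0;0,2,0;0,0,1], by decide, by decide⟩

/-- `diag(1,-1,-1)` -/
def l : G := ⟨!![1,0,0;0,2,0;0,0,2], !![1,0,0;0,2,0;0,0,2], by decide, by decide⟩

/-- the permutation matrix of `(1 3)` -/
def g : G := ⟨!![0,0,1;0,1,0;1,0,0], !![0,0,1;0,1,0;1,0,0], by decide, by decide⟩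

/-- a transvection -/
def τ : G := ⟨!![1,0,0;0,1,1;0,0,1], !![1,0,0;0,1,2;0,0,1], by decide, by decide⟩

/-- an element of order four of the quaternion group -/
def qi : G := ⟨!![0,1,0;2,0,0;0,0,1], !![0,2,0;1,0,0;0,0,1], by decide, by decide⟩

/-- another element of order four of the quaternion group -/
def qj : G := ⟨!![1,1,0;1,2,0;0,0,1], !![2,2,0;2,1,0;0,0,1], by decide, by decide⟩

theorem hz : z * z = 1 := by
  apply Units.ext; decide

theorem hl : l * l = 1 := by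
  apply Units.ext; decide

theorem hg : g * l = z * g := by
  apply Units.ext; decide

theorem hτl : τ * l = l * τ := by
  apply Units.ext; decide

theorem hτ1 : τ ≠ 1 := by
  intro h
  have h1 := congrArg (fun m : G => (m : Matrix (Fin 3) (Fin 3) (ZMod 3)) 1 2) h
  revert h1
  decide

/-- The matrix has the shape of an element of `GL₂ × GL₁`. -/
def IsBlk (m : G) : Prop :=
  (m : Matrix (Fin 3) (Fin 3) (ZMod 3)) 0 2 = 0 ∧ (m : Matrix (Fin 3) (Fin 3) (ZMod 3)) 1 2 = 0 ∧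
  (m : Matrix (Fin 3) (Fin 3) (ZMod 3)) 2 0 = 0 ∧ (m : Matrix (Fin 3) (Fin 3) (ZMod 3)) 2 1 = 0

theorem two_mul_eq {a : ZMod 3} (h : 2 * a = a) : a = 0 := by
  revert a; decide

theorem mul_two_eq {a : ZMod 3} (h : a * 2 = a) : a = 0 := by
  revert a; decide

theorem blk_iff (m : G) : m * z = z * m ↔ IsBlk m := by
  constructor
  · intro h
    have h1 := congrArg (fun m : G => (m : Matrix (Fin 3) (Fin 3) (ZMod 3))) h
    simp only [Units.val_mul] at h1
    have h02 := congrFun (congrFun h1 0) 2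
    have h12 := congrFun (congrFun h1 1) 2
    have h20 := congrFun (congrFun h1 2) 0
    have h21 := congrFun (congrFun h1 2) 1
    simp only [Matrix.mul_apply, Fin.sum_univ_three] at h02 h12 h20 h21
    simp [z] at h02 h12 h20 h21
    exact ⟨two_mul_eq h02.symm, two_mul_eq h12.symm, mul_two_eq h20, mul_two_eq h21⟩
  · rintro ⟨h02, h12, h20, h21⟩
    apply Units.ext
    ext i j
    simp only [Units.val_mul, Matrix.mul_apply, Fin.sum_univ_three]
    fin_cases i <;> fin_cases j <;> simp [z, h02, h12, h20, h21, mul_comm]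


/-- entries of an element -/
abbrev en (m : G) (i j : Fin 3) : ZMod 3 := (m : Matrix (Fin 3) (Fin 3) (ZMod 3)) i j

theorem en_mul (m n : G) (i j : Fin 3) :
    en (m * n) i j = en m i 0 * en n 0 j + en m i 1 * en n 1 j + en m i 2 * en n 2 j := by
  simp only [en, Units.val_mul, Matrix.mul_apply, Fin.sum_univ_three]

theorem isBlk_def (m : G) : IsBlk m ↔ en m 0 2 = 0 ∧ en m 1 2 = 0 ∧ en m 2 0 = 0 ∧ en m 2 1 = 0 :=
  Iff.rfl

theorem IsBlk.mul {m n : G} (hm : IsBlk m) (hn : IsBlk n) : IsBlk (m * n) := by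
  rw [← blk_iff] at *
  rw [mul_assoc, hn, ← mul_assoc, hm, mul_assoc]

theorem IsBlk.inv {m : G} (hm : IsBlk m) : IsBlk m⁻¹ := by
  rw [← blk_iff] at *
  have h1 : Commute m z := hm
  exact h1.inv_left

theorem isBlk_one : IsBlk 1 := by
  rw [← blk_iff]; simp

/-- membership in the quaternion group of order eight in `SL₂(F₃)` -/
def q8 (a b c d : ZMod 3) : Prop := a * d - b * c = 1 ∧ (a + d = 0 ∨ (b = 0 ∧ c = 0 ∧ a = d))

instance (a b c d : ZMod 3) : Decidable (q8 a b c d) := by unfold q8; infer_instance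

/-- membership in the semidihedral group of order sixteen in `GL₂(F₃)` -/
def sd (a b c d : ZMod 3) : Prop := q8 a b c d ∨ q8 a (-b) c (-d)

instance (a b c d : ZMod 3) : Decidable (sd a b c d) := by unfold sd; infer_instance

theorem sd_mul : ∀ a b c d : ZMod 3, sd a b c d → ∀ a' b' c' d' : ZMod 3, sd a' b' c' d' →
    sd (a * a' + b * c') (a * b' + b * d') (c * a' + d * c') (c * b' + d * d') := by
  decide +kernel

theorem q8_mul : ∀ a b c d : ZMod 3, q8 a b c d → ∀ a' b' c' d' : ZMod 3, q8 a' b' c' d' →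
    q8 (a * a' + b * c') (a * b' + b * d') (c * a' + d * c') (c * b' + d * d') := by
  decide +kernel

/-- A submonoid of a finite group gives a subgroup. -/
def ofMul (P : G → Prop) (h1 : P 1) (hm : ∀ a b, P a → P b → P (a * b)) : Subgroup G where
  carrier := {m | P m}
  one_mem' := h1
  mul_mem' := fun {a b} ha hb => hm a b ha hb
  inv_mem' := fun {a} ha => by
    have h2 : ∀ n : ℕ, P (a ^ n) := by
      intro n
      induction n with
      | zero => simpa using h1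
      | succ n ih => rw [pow_succ]; exact hm _ _ ih ha
    have h3 : a ^ (orderOf a - 1) * a = 1 := by
      rw [← pow_succ, Nat.sub_add_cancel (orderOf_pos a), pow_orderOf_eq_one]
    have h4 : a⁻¹ = a ^ (orderOf a - 1) := by
      rw [← mul_one (a ^ (orderOf a - 1)), ← mul_inv_cancel a, ← mul_assoc, h3, one_mul]
    show P a⁻¹
    rw [h4]
    exact h2 _

theorem mem_ofMul {P : G → Prop} {h1 : P 1} {hm : ∀ a b, P a → P b → P (a * b)} {m : G} :
    m ∈ ofMul P h1 hm ↔ P m := Iff.rfl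

/-- A Sylow `2`-subgroup of `GL₃(F₃)`, of order `32`. -/
def D : Subgroup G := ofMul (fun m => IsBlk m ∧ sd (en m 0 0) (en m 0 1) (en m 1 0) (en m 1 1))
  ⟨isBlk_one, by decide +kernel⟩ (by
    rintro m n ⟨hm, hm'⟩ ⟨hn, hn'⟩
    refine ⟨hm.mul hn, ?_⟩
    obtain ⟨m02, m12, m20, m21⟩ := hm
    obtain ⟨n02, n12, n20, n21⟩ := hn
    simp only [en_mul, en, m02, m12, n20, n21, mul_zero, add_zero]
    exact sd_mul _ _ _ _ hm' _ _ _ _ hn')

/-- A subgroup of order `16`, `Q₈ × C₂`. -/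
def Q : Subgroup G := ofMul (fun m => IsBlk m ∧ q8 (en m 0 0) (en m 0 1) (en m 1 0) (en m 1 1))
  ⟨isBlk_one, by decide +kernel⟩ (by
    rintro m n ⟨hm, hm'⟩ ⟨hn, hn'⟩
    refine ⟨hm.mul hn, ?_⟩
    obtain ⟨m02, m12, m20, m21⟩ := hm
    obtain ⟨n02, n12, n20, n21⟩ := hn
    simp only [en_mul, en, m02, m12, n20, n21, mul_zero, add_zero]
    exact q8_mul _ _ _ _ hm' _ _ _ _ hn')

/-- A subgroup of order `9`. -/
def U : Subgroup G := ofMul (fun m => en m 0 0 = 1 ∧ en m 0 1 = 0 ∧ en m 1 0 = 0 ∧ en m 1 1 = 1 ∧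
    en m 2 0 = 0 ∧ en m 2 1 = 0 ∧ en m 2 2 = 1)
  (by decide +kernel) (by
    rintro m n ⟨m1, m2, m3, m4, m5, m6, m7⟩ ⟨n1, n2, n3, n4, n5, n6, n7⟩
    simp only [en_mul, m1, m2, m3, m4, m5, m6, m7, n1, n2, n3, n4, n5, n6, n7, mul_zero, zero_mul,
      add_zero, zero_add, mul_one, one_mul, and_self])

theorem mem_D {m : G} : m ∈ D ↔ IsBlk m ∧ sd (en m 0 0) (en m 0 1) (en m 1 0) (en m 1 1) := Iff.rfl

theorem mem_Q {m : G} : m ∈ Q ↔ IsBlk m ∧ q8 (en m 0 0) (en m 0 1) (en m 1 0) (en m 1 1) := Iff.rfl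

theorem mem_U {m : G} : m ∈ U ↔ en m 0 0 = 1 ∧ en m 0 1 = 0 ∧ en m 1 0 = 0 ∧ en m 1 1 = 1 ∧
    en m 2 0 = 0 ∧ en m 2 1 = 0 ∧ en m 2 2 = 1 := Iff.rfl

theorem hQD : Q ≤ D := fun _ hm => ⟨hm.1, Or.inl hm.2⟩

theorem hzD : z ∈ D := by
  rw [mem_D, isBlk_def]; decide +kernel

theorem hlD : l ∈ D := by
  rw [mem_D, isBlk_def]; decide +kernel

theorem hτU : τ ∈ U := by
  rw [mem_U]; decide +kernel

theorem hDz (d : G) (hd : d ∈ D) : d * z = z * d := (blk_iff d).2 hd.1

theorem qi_mem : qi ∈ Q := by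
  rw [mem_Q, isBlk_def]; decide +kernel

theorem qj_mem : qj ∈ Q := by
  rw [mem_Q, isBlk_def]; decide +kernel

theorem det_ne (m : G) : en m 0 0 * en m 1 1 * en m 2 2 - en m 0 0 * en m 1 2 * en m 2 1
    - en m 0 1 * en m 1 0 * en m 2 2 + en m 0 1 * en m 1 2 * en m 2 0
    + en m 0 2 * en m 1 0 * en m 2 1 - en m 0 2 * en m 1 1 * en m 2 0 ≠ 0 := by
  have h1 : (m : Matrix (Fin 3) (Fin 3) (ZMod 3)).det ≠ 0 :=
    ((Matrix.isUnit_iff_isUnit_det _).1 m.isUnit).ne_zero
  rw [Matrix.det_fin_three] at h1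
  exact h1

theorem IsBlk.det_ne {m : G} (hm : IsBlk m) :
    (en m 0 0 * en m 1 1 - en m 0 1 * en m 1 0) * en m 2 2 ≠ 0 := by
  have h1 := GL33.det_ne m
  obtain ⟨m02, m12, m20, m21⟩ := (isBlk_def m).1 hm
  rw [m02, m12, m20, m21] at h1
  intro h
  apply h1
  linear_combination h

theorem cent_aux : ∀ a b c d : ZMod 3, (a * d - b * c ≠ 0 ∧ c = b * 2 ∧ d = a ∧
    a + c = a + b) → q8 a b c d := by
  decide +kernel

theorem hQc (c : G) (hc : c * z = z * c) (h : ∀ q ∈ Q, q * c = c * q) : c ∈ Q := by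
  rw [blk_iff] at hc
  refine mem_Q.2 ⟨hc, ?_⟩
  have hi := h qi qi_mem
  have hj := h qj qj_mem
  have hi0 := congrArg (fun m => en m 0 0) hi
  have hi1 := congrArg (fun m => en m 0 1) hi
  have hj0 := congrArg (fun m => en m 0 0) hj
  have hd := left_ne_zero_of_mul hc.det_ne
  obtain ⟨m02, m12, m20, m21⟩ := (isBlk_def c).1 hc
  simp only [en_mul, m02, m12, m20, m21] at hi0 hi1 hj0
  refine cent_aux _ _ _ _ ⟨hd, ?_, ?_, ?_⟩
  · simpa [en, qi] using hi0
  · simpa [en, qi] using hi1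
  · simpa [en, qj] using hj0

theorem en22_conj {c m : G} (hc : IsBlk c) (hm : IsBlk m) : en (c * m * c⁻¹) 2 2 = en m 2 2 := by
  have h1 : c * m * c⁻¹ * c = c * m := by group
  have h2 := congrArg (fun m => en m 2 2) h1
  have h3 := right_ne_zero_of_mul hc.det_ne
  obtain ⟨c02, c12, c20, c21⟩ := (isBlk_def c).1 hc
  obtain ⟨m02, m12, m20, m21⟩ := (isBlk_def m).1 hm
  simp only [en_mul (c * m * c⁻¹) c, en_mul c m, c02, c12, c20, c21, mul_zero, zero_mul,
    zero_add] at h2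
  rw [mul_comm (en c 2 2)] at h2
  exact mul_right_cancel₀ h3 h2

/-- the elements of `Q` in terms of determinant and trace -/
theorem mem_Q' {m : G} (hm : IsBlk m) : m ∈ Q ↔
    ((m : Matrix (Fin 3) (Fin 3) (ZMod 3)).det = en m 2 2 ∧
      ((m : Matrix (Fin 3) (Fin 3) (ZMod 3)).trace = en m 2 2 ∨
        m = 1 ∨ m = z ∨ m = -1 ∨ m = -z)) := by
  have h3 := right_ne_zero_of_mul hm.det_ne
  obtain ⟨m02, m12, m20, m21⟩ := (isBlk_def m).1 hm
  have hdet : (m : Matrix (Fin 3) (Fin 3) (ZMod 3)).det =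
      (en m 0 0 * en m 1 1 - en m 0 1 * en m 1 0) * en m 2 2 := by
    rw [Matrix.det_fin_three]
    simp only [en] at m02 m12 m20 m21 ⊢
    rw [m02, m12, m20, m21]
    ring
  have htr : (m : Matrix (Fin 3) (Fin 3) (ZMod 3)).trace =
      (en m 0 0 + en m 1 1) + en m 2 2 := by
    rw [Matrix.trace_fin_three]
  rw [hdet, htr, mem_Q, and_iff_right hm]
  unfold q8
  rw [add_eq_right]
  constructor
  · rintro ⟨h1, h2⟩
    refine ⟨by rw [h1, one_mul], ?_⟩
    rcases h2 with h2 | ⟨hb, hc, hd⟩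
    · exact Or.inl h2
    · right
      have key : ∀ a e : ZMod 3, (a ≠ 0 ∧ e ≠ 0) → ((a = 1 ∧ e = 1) ∨ (a = 2 ∧ e = 1) ∨
        (a = 2 ∧ e = 2) ∨ (a = 1 ∧ e = 2)) := by decide +kernel
      have ha : en m 0 0 ≠ 0 := by
        intro h0
        rw [h0, hb] at h1
        simp at h1
      rcases key _ _ ⟨ha, h3⟩ with ⟨ha, he⟩ | ⟨ha, he⟩ | ⟨ha, he⟩ | ⟨ha, he⟩
      · left
        apply Units.ext
        ext i j
        have hd' := hd.symm.trans ha
        simp only [en] at m02 m12 m20 m21 ha he hb hc hd'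
        fin_cases i <;> fin_cases j <;> simp [m02, m12, m20, m21, ha, he, hb, hc, hd']
      · right; left
        apply Units.ext
        ext i j
        have hd' := hd.symm.trans ha
        simp only [en] at m02 m12 m20 m21 ha he hb hc hd'
        fin_cases i <;> fin_cases j <;> simp [m02, m12, m20, m21, ha, he, hb, hc, hd', z]
      · right; right; left
        apply Units.ext
        ext i j
        have hd' := hd.symm.trans ha
        simp only [en] at m02 m12 m20 m21 ha he hb hc hd'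
        fin_cases i <;> fin_cases j <;> simp [m02, m12, m20, m21, ha, he, hb, hc, hd'] <;> decide
      · right; right; right
        apply Units.ext
        ext i j
        have hd' := hd.symm.trans ha
        simp only [en] at m02 m12 m20 m21 ha he hb hc hd'
        fin_cases i <;> fin_cases j <;> simp [m02, m12, m20, m21, ha, he, hb, hc, hd', z] <;> decide
  · rintro ⟨h1, h2⟩
    refine ⟨mul_right_cancel₀ h3 (by rw [h1, one_mul]), ?_⟩
    rcases h2 with h2 | h2 | h2 | h2 | h2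
    · exact Or.inl h2
    · subst h2; right; decide +kernel
    · subst h2; right; decide +kernel
    · subst h2; right; decide +kernel
    · subst h2; right; decide +kernel

theorem hQn (c : G) (hc : c * z = z * c) (q : G) (hq : q ∈ Q) : c * q * c⁻¹ ∈ Q := by
  rw [blk_iff] at hc
  have hqb : IsBlk q := hq.1
  have hcq : IsBlk (c * q * c⁻¹) := (hc.mul hqb).mul hc.inv
  rw [mem_Q' hqb] at hq
  rw [mem_Q' hcq, en22_conj hc hqb]
  have h1 : ((c * q * c⁻¹ : G) : Matrix (Fin 3) (Fin 3) (ZMod 3)) =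
      (c : Matrix (Fin 3) (Fin 3) (ZMod 3)) * (q : Matrix (Fin 3) (Fin 3) (ZMod 3)) *
        ((c⁻¹ : G) : Matrix (Fin 3) (Fin 3) (ZMod 3)) := rfl
  have h2 : ((c⁻¹ : G) : Matrix (Fin 3) (Fin 3) (ZMod 3)) *
      (c : Matrix (Fin 3) (Fin 3) (ZMod 3)) = 1 := by
    rw [← Units.val_mul, inv_mul_cancel, Units.val_one]
  rw [h1]
  refine ⟨?_, ?_⟩
  · rw [Matrix.det_units_conj]
    exact hq.1
  · rw [Matrix.trace_mul_comm, ← mul_assoc, h2, one_mul]
    have hcz : c * z * c⁻¹ = z := by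
      rw [(blk_iff c).2 hc, mul_assoc, mul_inv_cancel, mul_one]
    rcases hq.2 with h | h | h | h | h
    · exact Or.inl h
    · subst h; right; left; simp
    · subst h; right; right; left; exact hcz
    · subst h; right; right; right; left; simp
    · subst h; right; right; right; right; rw [mul_neg, neg_mul, hcz]

theorem exists_of_entries (a b c d e : ZMod 3) (h : (a * d - b * c) * e ≠ 0) :
    ∃ m : G, IsBlk m ∧ en m 0 0 = a ∧ en m 0 1 = b ∧ en m 1 0 = c ∧ en m 1 1 = d ∧ en m 2 2 = e := by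
  refine ⟨Matrix.GeneralLinearGroup.mkOfDetNeZero !![a,b,0;c,d,0;0,0,e] ?_, ?_, ?_⟩
  · rw [Matrix.det_fin_three]
    simp
    intro h1
    apply h
    rw [← h1]
    ring
  · refine ⟨rfl, rfl, rfl, rfl⟩
  · refine ⟨rfl, rfl, rfl, rfl, rfl⟩

theorem IsBlk.ext {m n : G} (hm : IsBlk m) (hn : IsBlk n) (h00 : en m 0 0 = en n 0 0)
    (h01 : en m 0 1 = en n 0 1) (h10 : en m 1 0 = en n 1 0) (h11 : en m 1 1 = en n 1 1)
    (h22 : en m 2 2 = en n 2 2) : m = n := by
  obtain ⟨m02, m12, m20, m21⟩ := hm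
  obtain ⟨n02, n12, n20, n21⟩ := hn
  apply Units.ext
  ext i j
  fin_cases i <;> fin_cases j <;> first | assumption | skip
  · exact m02.trans n02.symm
  · exact m12.trans n12.symm
  · exact m20.trans n20.symm
  · exact m21.trans n21.symm

/-- the entries of the elements of `D` -/
abbrev DSet := {x : ZMod 3 × ZMod 3 × ZMod 3 × ZMod 3 × ZMod 3 //
  sd x.1 x.2.1 x.2.2.1 x.2.2.2.1 ∧ x.2.2.2.2 ≠ 0}

theorem card_DSet : Fintype.card DSet = 32 := by
  decide +kernel

theorem sd_det : ∀ a b c d : ZMod 3, sd a b c d → a * d - b * c ≠ 0 := by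
  decide +kernel

theorem card_D : Nat.card D = 32 := by
  rw [← card_DSet, ← Nat.card_eq_fintype_card]
  apply Nat.card_congr
  refine Equiv.ofBijective (fun m => ⟨(en m.1 0 0, en m.1 0 1, en m.1 1 0, en m.1 1 1,
    en m.1 2 2), m.2.2, right_ne_zero_of_mul (IsBlk.det_ne m.2.1)⟩) ⟨?_, ?_⟩
  · intro m n h
    simp only [Subtype.mk.injEq, Prod.mk.injEq] at h
    exact Subtype.ext (m.2.1.ext n.2.1 h.1 h.2.1 h.2.2.1 h.2.2.2.1 h.2.2.2.2)
  · rintro ⟨⟨a, b, c, d, e⟩, h1, h2⟩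
    obtain ⟨m, hm, h00, h01, h10, h11, h22⟩ := exists_of_entries a b c d e
      (mul_ne_zero (sd_det _ _ _ _ h1) h2)
    refine ⟨⟨m, mem_D.2 ⟨hm, ?_⟩⟩, ?_⟩
    · rw [h00, h01, h10, h11]; exact h1
    · simp only [Subtype.mk.injEq, Prod.mk.injEq]
      exact ⟨h00, h01, h10, h11, h22⟩

theorem hD2 : IsPGroup 2 D := IsPGroup.of_card (n := 5) card_D

theorem card_G : Nat.card G = 32 * 351 := by
  have : Fact (Nat.Prime 3) := ⟨Nat.prime_three⟩
  rw [Matrix.card_GL_field]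
  simp [Fin.prod_univ_three]

theorem hmax (R : Subgroup G) (hR : IsPGroup 2 R) (h : D ≤ R) : R = D := by
  have h2 : Fact (Nat.Prime 2) := ⟨Nat.prime_two⟩
  obtain ⟨n, hn⟩ := IsPGroup.iff_card.1 hR
  have h1 : Nat.card R ∣ 32 * 351 := card_G ▸ Subgroup.card_subgroup_dvd_card R
  have h3 : Nat.card R ∣ 32 := by
    apply Nat.Coprime.dvd_of_dvd_mul_right _ h1
    rw [hn]
    exact Nat.Coprime.pow_left _ (by decide)
  symm
  apply Subgroup.eq_of_le_of_card_ge h
  rw [card_D]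
  exact Nat.le_of_dvd (by norm_num) h3

theorem exists_of_entries' (a b : ZMod 3) :
    ∃ m : G, m ∈ U ∧ en m 0 2 = a ∧ en m 1 2 = b := by
  refine ⟨Matrix.GeneralLinearGroup.mkOfDetNeZero !![1,0,a;0,1,b;0,0,1] ?_, ?_, ?_⟩
  · rw [Matrix.det_fin_three]
    simp
  · rw [mem_U]
    refine ⟨rfl, rfl, rfl, rfl, rfl, rfl, rfl⟩
  · exact ⟨rfl, rfl⟩

theorem U_ext {m n : G} (hm : m ∈ U) (hn : n ∈ U) (h02 : en m 0 2 = en n 0 2)
    (h12 : en m 1 2 = en n 1 2) : m = n := by
  obtain ⟨m00, m01, m10, m11, m20, m21, m22⟩ := mem_U.1 hm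
  obtain ⟨n00, n01, n10, n11, n20, n21, n22⟩ := mem_U.1 hn
  apply Units.ext
  ext i j
  fin_cases i <;> fin_cases j <;> first | assumption | skip
  · exact m00.trans n00.symm
  · exact m01.trans n01.symm
  · exact m10.trans n10.symm
  · exact m11.trans n11.symm
  · exact m20.trans n20.symm
  · exact m21.trans n21.symm
  · exact m22.trans n22.symm

theorem card_U : Nat.card U = 9 := by
  have h : Nat.card (ZMod 3 × ZMod 3) = 9 := by
    rw [Nat.card_prod, Nat.card_zmod]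
  rw [← h]
  apply Nat.card_congr
  refine Equiv.ofBijective (fun m => (en m.1 0 2, en m.1 1 2)) ⟨?_, ?_⟩
  · intro m n h
    simp only [Prod.mk.injEq] at h
    exact Subtype.ext (U_ext m.2 n.2 h.1 h.2)
  · rintro ⟨a, b⟩
    obtain ⟨m, hm, h02, h12⟩ := exists_of_entries' a b
    refine ⟨⟨m, hm⟩, ?_⟩
    simp only [Prod.mk.injEq]
    exact ⟨h02, h12⟩

theorem hU : ¬ 2 ∣ Nat.card U := by
  rw [card_U]; decide

theorem hUD (d : G) (hd : d ∈ D) (u : G) (hu : u ∈ U) : d * u * d⁻¹ ∈ U := by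
  have hb : IsBlk d := hd.1
  have h3 := right_ne_zero_of_mul hb.det_ne
  obtain ⟨v, hv, h02, h12⟩ := exists_of_entries'
    ((en d 0 0 * en u 0 2 + en d 0 1 * en u 1 2) * (en d 2 2)⁻¹)
    ((en d 1 0 * en u 0 2 + en d 1 1 * en u 1 2) * (en d 2 2)⁻¹)
  have h1 : d * u = v * d := by
    obtain ⟨d02, d12, d20, d21⟩ := (isBlk_def d).1 hb
    obtain ⟨u00, u01, u10, u11, u20, u21, u22⟩ := mem_U.1 hu
    obtain ⟨v00, v01, v10, v11, v20, v21, v22⟩ := mem_U.1 hv
    have h : ∀ i j, en (d * u) i j = en (v * d) i j := by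
      intro i j
      rw [en_mul, en_mul]
      fin_cases i <;> fin_cases j
      · simp [d20, u00, u10, u20, v00, v01]
      · simp [d21, u01, u11, u21, v00, v01]
      · simp [d02, u22, v00, v01, h02, h3]
      · simp [d20, u00, u10, u20, v10, v11]
      · simp [d21, u01, u11, u21, v10, v11]
      · simp [d12, u22, v10, v11, h12, h3]
      · simp [d20, d21, u20, v20, v21]
      · simp [d20, d21, u21, v20, v21]
      · simp [d20, d21, u22, v20, v21, v22]
    apply Units.ext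
    ext i j
    exact h i j
  rw [h1, mul_assoc, mul_inv_cancel, mul_one]
  exact hv

end Pool.Agent.TH12.Blk.GL33
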