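import Mathlib

/-! Coefficients in group algebras, truncation to subsets, sums over conjugation orbits of
`p`-groups, and fixed vectors of `p`-groups in characteristic `p`. -/

set_option autoImplicit false

namespace Pool.Agent.TH12.Blk

open MonoidAlgebra

section Coeff

variable {R : Type*} [CommRing R] {G : Type*} [Group G]

lemma coeff_of_mul (g : G) (a : MonoidAlgebra R G) (x : G) :
    (of R G g * a).coeff x = a.coeff (g⁻¹ * x) := by
  rw [of_apply, coeff_single_mul_eq_mul_coeff (g⁻¹ * x), one_mul]
  intro m' _
  constructor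
  · rintro rfl
    group
  · rintro rfl
    group

lemma coeff_mul_of (g : G) (a : MonoidAlgebra R G) (x : G) :
    (a * of R G g).coeff x = a.coeff (x * g⁻¹) := by
  rw [of_apply, coeff_mul_single_eq_coeff_mul (x * g⁻¹), mul_one]
  intro m' _
  constructor
  · rintro rfl
    group
  · rintro rfl
    group

lemma coeff_of (g x : G) [Decidable (g = x)] : (of R G g).coeff x = if g = x then 1 else 0 := by
  classical
  rw [of_apply, coeff_single, Finsupp.single_apply]

lemma coeff_mul_sum [Fintype G] (a b : MonoidAlgebra R G) (x : G) :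
    (a * b).coeff x = ∑ y, a.coeff y * b.coeff (y⁻¹ * x) := by
  classical
  rw [coeff_mul_antidiag a b x (Finset.univ.image fun y : G => (y, y⁻¹ * x))]
  · rw [Finset.sum_image]
    intro y _ z _ h
    exact (Prod.ext_iff.1 h).1
  · intro p
    rw [Finset.mem_image]
    constructor
    · rintro ⟨y, -, rfl⟩
      simp
    · intro h
      refine ⟨p.1, Finset.mem_univ _, ?_⟩
      ext
      · rfl
      · rw [← h]
        simp

lemma coeff_mul_sum' [Fintype G] (a b : MonoidAlgebra R G) (x : G) :
    (a * b).coeff x = ∑ y, a.coeff (x * y⁻¹) * b.coeff y := by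
  rw [coeff_mul_sum]
  refine Fintype.sum_equiv ((Equiv.inv G).trans (Equiv.mulRight x)) _ _ ?_
  intro y
  simp

/-- An element commutes with a group element iff its coefficients are invariant. -/
lemma comm_iff (g : G) (a : MonoidAlgebra R G) :
    of R G g * a = a * of R G g ↔ ∀ x, a.coeff (g * x * g⁻¹) = a.coeff x := by
  constructor
  · intro h x
    have h1 := congrArg (fun b : MonoidAlgebra R G => b.coeff (g * x)) h
    simp only [coeff_of_mul, coeff_mul_of] at h1
    rw [inv_mul_cancel_left] at h1
    exact h1.symm
  · intro h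
    ext x
    rw [coeff_of_mul, coeff_mul_of, ← h (g⁻¹ * x)]
    congr 1
    group

open Classical in
/-- the restriction of an element of the group algebra to a subset of the group -/
noncomputable def trunc (R : Type*) [CommRing R] {G : Type*} [Group G] (K : Set G) :
    MonoidAlgebra R G →ₗ[R] MonoidAlgebra R G where
  toFun := fun a => ofCoeff (a.coeff.filter (· ∈ K))
  map_add' := fun a b => by
    ext x
    simp only [coeff_add, Finsupp.filter_add, Finsupp.add_apply]
  map_smul' := fun r a => by
    ext x
    by_cases hx : x ∈ K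
    · simp [coeff_smul, hx]
    · simp [coeff_smul, hx]

open Classical in
lemma coeff_trunc (K : Set G) (a : MonoidAlgebra R G) (x : G) :
    (trunc R K a).coeff x = if x ∈ K then a.coeff x else 0 := by
  change (a.coeff.filter (· ∈ K)) x = _
  rw [Finsupp.filter_apply]

lemma coeff_trunc_of_mem {K : Set G} {x : G} (hx : x ∈ K) (a : MonoidAlgebra R G) :
    (trunc R K a).coeff x = a.coeff x := by
  classical
  rw [coeff_trunc, if_pos hx]

lemma coeff_trunc_of_notMem {K : Set G} {x : G} (hx : x ∉ K) (a : MonoidAlgebra R G) :
    (trunc R K a).coeff x = 0 := by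
  classical
  rw [coeff_trunc, if_neg hx]

/-- `a` is supported in `K` -/
def SuppIn (K : Set G) (a : MonoidAlgebra R G) : Prop := ∀ x, x ∉ K → a.coeff x = 0

lemma suppIn_trunc (K : Set G) (a : MonoidAlgebra R G) : SuppIn K (trunc R K a) :=
  fun _ hx => coeff_trunc_of_notMem hx a

lemma trunc_of_suppIn {K : Set G} {a : MonoidAlgebra R G} (ha : SuppIn K a) :
    trunc R K a = a := by
  classical
  ext x
  rw [coeff_trunc]
  split_ifs with h
  · rfl
  · exact (ha x h).symm

end Coeff

section Sums

variable {k : Type*} [CommRing k] {p : ℕ} [Fact p.Prime] [CharP k p]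

/-- The sum of an invariant function over a finite set with an action of a `p`-group is the sum
over the fixed points. -/
lemma sum_eq_sum_fixed {P Y : Type*} [Group P] (hP : IsPGroup p P) [Fintype Y]
    [MulAction P Y] (f : Y → k) (hf : ∀ (g : P) (y : Y), f (g • y) = f y)
    [DecidablePred (· ∈ MulAction.fixedPoints P Y)] :
    ∑ y, f y = ∑ y with y ∈ MulAction.fixedPoints P Y, f y := by
  classical
  have key : ∀ c : k, ((Finset.univ.filter fun y => f y = c).card : k) =
      (((Finset.univ.filter fun y : Y => y ∈ MulAction.fixedPoints P Y).filter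
        fun y => f y = c).card : k) := by
    intro c
    let Yc : Type _ := {y : Y // f y = c}
    let act : MulAction P Yc :=
      { smul := fun g y => ⟨g • y.1, by rw [hf]; exact y.2⟩
        one_smul := fun y => Subtype.ext (one_smul P y.1)
        mul_smul := fun g h y => Subtype.ext (mul_smul g h y.1) }
    have h1 := hP.card_modEq_card_fixedPoints Yc
    have h2 : Nat.card Yc = (Finset.univ.filter fun y => f y = c).card := by
      rw [Nat.card_eq_fintype_card, Fintype.card_subtype]
    have h3 : Nat.card (MulAction.fixedPoints P Yc) =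
        ((Finset.univ.filter fun y : Y => y ∈ MulAction.fixedPoints P Y).filter
          fun y => f y = c).card := by
      rw [Nat.card_eq_fintype_card, ← Fintype.card_coe]
      refine Fintype.card_congr
        { toFun := fun y => ⟨y.1.1, ?_⟩
          invFun := fun y => ⟨⟨y.1, ?_⟩, ?_⟩
          left_inv := fun y => ?_
          right_inv := fun y => ?_ }
      · rw [Finset.mem_filter, Finset.mem_filter]
        refine ⟨⟨Finset.mem_univ _, fun g => ?_⟩, y.1.2⟩
        exact congrArg Subtype.val (y.2 g)
      · have := y.2
        rw [Finset.mem_filter] at this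
        exact this.2
      · have := y.2
        rw [Finset.mem_filter, Finset.mem_filter] at this
        intro g
        exact Subtype.ext (this.1.2 g)
      · rfl
      · rfl
    rw [h2, h3] at h1
    exact (CharP.natCast_eq_natCast k p).2 h1
  have h1 : ∑ y, f y = ∑ c ∈ Finset.univ.image f,
      (Finset.univ.filter fun y => f y = c).card • c := Finset.sum_comp (fun c : k => c) f
  have h2 : ∑ y with y ∈ MulAction.fixedPoints P Y, f y =
      ∑ c ∈ (Finset.univ.filter fun y : Y => y ∈ MulAction.fixedPoints P Y).image f,
      ((Finset.univ.filter fun y : Y => y ∈ MulAction.fixedPoints P Y).filter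
        fun y => f y = c).card • c := Finset.sum_comp (fun c : k => c) f
  rw [h1, h2]
  have h3 : ∑ c ∈ (Finset.univ.filter fun y : Y => y ∈ MulAction.fixedPoints P Y).image f,
      ((Finset.univ.filter fun y : Y => y ∈ MulAction.fixedPoints P Y).filter
        fun y => f y = c).card • c = ∑ c ∈ Finset.univ.image f,
      ((Finset.univ.filter fun y : Y => y ∈ MulAction.fixedPoints P Y).filter
        fun y => f y = c).card • c := by
    refine Finset.sum_subset (Finset.image_subset_image (Finset.filter_subset _ _)) ?_
    intro c _ hc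
    rw [Finset.mem_image] at hc
    have : ((Finset.univ.filter fun y : Y => y ∈ MulAction.fixedPoints P Y).filter
        fun y => f y = c) = ∅ := by
      rw [Finset.filter_eq_empty_iff]
      intro y hy h
      exact hc ⟨y, hy, h⟩
    rw [this, Finset.card_empty, zero_smul]
  rw [h3]
  refine Finset.sum_congr rfl fun c _ => ?_
  rw [nsmul_eq_mul, nsmul_eq_mul, key c]

/-- The sum of a function on a finite group that is invariant under conjugation by the elements of
a `p`-subgroup `P` is the sum over the centralizer of `P`. -/
lemma sum_conj_fixed {G : Type*} [Group G] [Fintype G] (P : Subgroup G) (hP : IsPGroup p P)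
    (f : G → k) (hf : ∀ u ∈ P, ∀ y, f (u * y * u⁻¹) = f y)
    [DecidablePred (· ∈ Subgroup.centralizer (P : Set G))] :
    ∑ y, f y = ∑ y with y ∈ Subgroup.centralizer (P : Set G), f y := by
  classical
  let act : MulAction P G := MulAction.compHom G (MulAut.conj.comp P.subtype)
  have hact : ∀ (u : P) (y : G), u • y = u.1 * y * u.1⁻¹ := fun u y => rfl
  rw [sum_eq_sum_fixed hP f fun u y => by rw [hact]; exact hf u.1 u.2 y]
  congr 1
  ext y
  rw [Finset.mem_filter, Finset.mem_filter]
  refine and_congr_right fun _ => ?_
  rw [MulAction.mem_fixedPoints, Subgroup.mem_centralizer_iff]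
  constructor
  · intro h u hu
    have := h ⟨u, hu⟩
    rw [hact] at this
    exact mul_inv_eq_iff_eq_mul.1 this
  · intro h u
    rw [hact]
    exact mul_inv_eq_iff_eq_mul.2 (h u.1 u.2)

end Sums

section Fixed

variable {p : ℕ} [Fact p.Prime]

lemma exists_fixed_vector_aux {P V : Type*} [Group P] [Finite P] (hP : IsPGroup p P)
    [AddCommGroup V] [Module (ZMod p) V] (ρ : P →* AddMonoid.End V) (W : AddSubgroup V)
    (hW : ∀ g, ∀ w ∈ W, ρ g w ∈ W) (v : V) (hv : v ∈ W) (hv0 : v ≠ 0) :
    ∃ w ∈ W, w ≠ 0 ∧ ∀ g, ρ g w = w := by
  classical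
  let S : Submodule (ZMod p) V := Submodule.span (ZMod p) (Set.range fun g : P => ρ g v)
  have hfin : FiniteDimensional (ZMod p) S := by
    apply FiniteDimensional.span_of_finite
    exact Set.finite_range _
  have hfin' : Finite S := Module.finite_of_finite (ZMod p)
  have hSW : ∀ s ∈ S, s ∈ W := by
    intro s hs
    have h1 : S ≤ AddSubgroup.toZModSubmodule p W := by
      rw [Submodule.span_le]
      rintro _ ⟨g, rfl⟩
      exact hW g v hv
    exact h1 hs
  have hstab : ∀ g, ∀ s ∈ S, ρ g s ∈ S := by
    intro g s hs
    have h1 : S ≤ S.comap (AddMonoidHom.toZModLinearMap p (ρ g)) := by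
      rw [Submodule.span_le]
      rintro _ ⟨h, rfl⟩
      apply Submodule.subset_span
      refine ⟨g * h, ?_⟩
      simp only [map_mul]
      rfl
    exact h1 hs
  let act : MulAction P S :=
    { smul := fun g s => ⟨ρ g s.1, hstab g s.1 s.2⟩
      one_smul := fun s => by
        apply Subtype.ext
        change ρ 1 s.1 = s.1
        rw [map_one]
        rfl
      mul_smul := fun g h s => by
        apply Subtype.ext
        change ρ (g * h) s.1 = ρ g (ρ h s.1)
        rw [map_mul]
        rfl }
  have hvS : v ∈ S := by
    apply Submodule.subset_span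
    refine ⟨1, ?_⟩
    simp only [map_one]
    rfl
  have hnt : Nontrivial S := ⟨⟨⟨v, hvS⟩, 0, fun h => hv0 (congrArg Subtype.val h)⟩⟩
  have hcard : p ∣ Nat.card S := by
    rw [Module.natCard_eq_pow_finrank (K := ZMod p) (V := S), Nat.card_zmod]
    have : 0 < Module.finrank (ZMod p) S := Module.finrank_pos
    exact dvd_pow_self _ this.ne'
  have h0 : (0 : S) ∈ MulAction.fixedPoints P S := by
    intro g
    apply Subtype.ext
    change ρ g 0 = 0
    exact map_zero _
  obtain ⟨b, hb, hb0⟩ := hP.exists_fixed_point_of_prime_dvd_card_of_fixed_point S hcard h0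
  refine ⟨b.1, hSW b.1 b.2, fun h => hb0 (Subtype.ext h.symm), fun g => ?_⟩
  exact congrArg Subtype.val (hb g)

/-- A `p`-group acting on an abelian group killed by `p` fixes a nonzero element of every nonzero
stable subgroup. -/
lemma exists_fixed_vector {P V : Type*} [Group P] [Finite P] (hP : IsPGroup p P)
    [AddCommGroup V] (hV : ∀ v : V, p • v = 0) (ρ : P →* AddMonoid.End V) (W : AddSubgroup V)
    (hW : ∀ g, ∀ w ∈ W, ρ g w ∈ W) (v : V) (hv : v ∈ W) (hv0 : v ≠ 0) :
    ∃ w ∈ W, w ≠ 0 ∧ ∀ g, ρ g w = w := by
  letI : Module (ZMod p) V := AddCommGroup.zmodModule hV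
  exact exists_fixed_vector_aux hP ρ W hW v hv hv0

end Fixed

end Pool.Agent.TH12.Blk
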