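import Pool.Agent.TH12.Blk.Trunc

/-! The counting lemma: dimension of `iAi`, the rank of `1 + σ` and the Brauer quotient. -/

set_option autoImplicit false

namespace Pool.Agent.TH12.Blk

open MonoidAlgebra

section Corner

variable {R : Type*} [CommRing R] {G : Type*} [Group G]

/-- the submodule `i A i` of `A = RG` -/
noncomputable def corner (i : MonoidAlgebra R G) : Submodule R (MonoidAlgebra R G) :=
  LinearMap.range ((LinearMap.mulLeft R i).comp (LinearMap.mulRight R i))

lemma mem_corner {i : MonoidAlgebra R G} (hi : i * i = i) (x : MonoidAlgebra R G) :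
    x ∈ corner i ↔ i * x = x ∧ x * i = x := by
  constructor
  · rintro ⟨a, rfl⟩
    change i * (i * (a * i)) = i * (a * i) ∧ (i * (a * i)) * i = i * (a * i)
    constructor
    · rw [← mul_assoc, hi]
    · rw [mul_assoc, mul_assoc, hi]
  · rintro ⟨h1, h2⟩
    refine ⟨x, ?_⟩
    change i * (x * i) = x
    rw [h2, h1]

lemma mul_mul_mem_corner (i a : MonoidAlgebra R G) : i * a * i ∈ corner i := by
  refine ⟨a, ?_⟩
  change i * (a * i) = i * a * i
  rw [mul_assoc]

/-- the elements supported in `K` -/
def suppSub (R : Type*) [CommRing R] {G : Type*} [Group G] (K : Set G) :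
    Submodule R (MonoidAlgebra R G) where
  carrier := {a | SuppIn K a}
  add_mem' := by
    intro a b ha hb x hx
    rw [coeff_add, Finsupp.add_apply, ha x hx, hb x hx, add_zero]
  zero_mem' := by
    intro x _
    rfl
  smul_mem' := by
    intro r a ha x hx
    rw [coeff_smul, Finsupp.smul_apply, ha x hx, smul_zero]

lemma mem_suppSub {K : Set G} {a : MonoidAlgebra R G} : a ∈ suppSub R K ↔ SuppIn K a := Iff.rfl

/-- the twisted action `x ↦ u x v` -/
noncomputable def sig (R : Type*) [CommRing R] {G : Type*} [Group G] (u v : G) :
    MonoidAlgebra R G →ₗ[R] MonoidAlgebra R G :=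
  (LinearMap.mulLeft R (of R G u)).comp (LinearMap.mulRight R (of R G v))

lemma sig_apply (u v : G) (x : MonoidAlgebra R G) : sig R u v x = of R G u * x * of R G v := by
  change of R G u * (x * of R G v) = _
  rw [mul_assoc]

/-- `1 + σ` -/
noncomputable def tau (R : Type*) [CommRing R] {G : Type*} [Group G] (u v : G) :
    MonoidAlgebra R G →ₗ[R] MonoidAlgebra R G := LinearMap.id + sig R u v

lemma tau_apply (u v : G) (x : MonoidAlgebra R G) :
    tau R u v x = x + of R G u * x * of R G v := by
  rw [tau, LinearMap.add_apply, sig_apply]
  rfl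

end Corner

lemma finrank_map_add {k V W : Type*} [Field k] [AddCommGroup V] [Module k V] [AddCommGroup W]
    [Module k W] (f : V →ₗ[k] W) (S : Submodule k V) [FiniteDimensional k S] :
    Module.finrank k (S.map f) + Module.finrank k (S ⊓ LinearMap.ker f : Submodule k V) =
      Module.finrank k S := by
  have h := LinearMap.finrank_range_add_finrank_ker (f.domRestrict S)
  have h1 : LinearMap.range (f.domRestrict S) = S.map f := LinearMap.range_domRestrict S f
  have h2 : Module.finrank k (LinearMap.ker (f.domRestrict S)) =
      Module.finrank k (S ⊓ LinearMap.ker f : Submodule k V) := by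
    have h3 : (LinearMap.ker (f.domRestrict S)).map S.subtype = S ⊓ LinearMap.ker f := by
      ext x
      simp only [Submodule.mem_map, LinearMap.mem_ker, LinearMap.domRestrict_apply,
        Submodule.subtype_apply, Submodule.mem_inf]
      constructor
      · rintro ⟨y, hy, rfl⟩
        exact ⟨y.2, hy⟩
      · rintro ⟨hx, hx'⟩
        exact ⟨⟨x, hx⟩, hx', rfl⟩
    rw [← Submodule.finrank_map_subtype_eq S (LinearMap.ker (f.domRestrict S)), h3]
  rw [h1] at h
  omega

section Count

variable {k : Type*} [Field k] [CharP k 2] {G : Type*} [Group G] [Fintype G]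

omit [Fintype G] in
lemma isPGroup_zpowers {u : G} (hu : u * u = 1) : IsPGroup 2 (Subgroup.zpowers u) := by
  rintro ⟨x, n, rfl⟩
  refine ⟨1, ?_⟩
  apply Subtype.ext
  change (u ^ n) ^ 2 ^ 1 = 1
  rw [pow_one, ← zpow_natCast, ← zpow_mul, mul_comm, zpow_mul, zpow_natCast, pow_two, hu, one_zpow]

instance finiteDim : FiniteDimensional k (MonoidAlgebra k G) := by
  exact Module.Finite.equiv (coeffLinearEquiv k : MonoidAlgebra k G ≃ₗ[k] G →₀ k).symm

/-- **Counting lemma.** -/
lemma count (u v : G) (hu : u * u = 1) (hv : v * v = 1) (i : MonoidAlgebra k G) (hi : i * i = i)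
    (hiu : of k G u * i = i * of k G u) (hiv : of k G v * i = i * of k G v) :
    Module.finrank k (corner i) = 2 * Module.finrank k ((corner i).map (tau k u v)) +
      Module.finrank k ((suppSub k {h | u * h = h * v}).map
        ((LinearMap.mulLeft k (trunc k {h | u * h = h * u} i)).comp
          (LinearMap.mulRight k (trunc k {h | v * h = h * v} i)))) := by
  classical
  have h2 : (2 : k) = 0 := CharP.cast_eq_zero k 2
  have hpu := isPGroup_zpowers hu
  have hpv := isPGroup_zpowers hv
  have hofu : of k G u * of k G u = 1 := by rw [← map_mul, hu, map_one]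
  have hofv : of k G v * of k G v = 1 := by rw [← map_mul, hv, map_one]
  have haa : ∀ a : MonoidAlgebra k G, a + a = 0 := by
    intro a
    have : a + a = (2 : k) • a := by rw [two_smul]
    rw [this, h2, zero_smul]
  set S := corner i with hS
  set K : Set G := {h | u * h = h * v} with hK
  set eu := trunc k {h | u * h = h * u} i with heu
  set ev := trunc k {h | v * h = h * v} i with hev
  have A := finrank_map_add (tau k u v) S
  have B := finrank_map_add (trunc k K) (S ⊓ LinearMap.ker (tau k u v))
  -- elements of the kernel of `tau`
  have hker : ∀ x, x ∈ LinearMap.ker (tau k u v) ↔ of k G u * x = x * of k G v := by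
    intro x
    rw [LinearMap.mem_ker, tau_apply]
    constructor
    · intro h
      have h1 : of k G u * x * of k G v = x := by
        have h3 := haa x
        have h4 : x + of k G u * x * of k G v = x + x := by rw [h, h3]
        exact add_left_cancel h4
      calc of k G u * x = of k G u * x * (of k G v * of k G v) := by rw [hofv, mul_one]
        _ = x * of k G v := by rw [← mul_assoc, h1]
    · intro h
      rw [h, mul_assoc, hofv, mul_one]
      exact haa x
  have C1 : (S ⊓ LinearMap.ker (tau k u v)).map (trunc k K) = (suppSub k K).map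
      ((LinearMap.mulLeft k eu).comp (LinearMap.mulRight k ev)) := by
    ext w
    constructor
    · rintro ⟨x, ⟨hxS, hxk⟩, rfl⟩
      rw [SetLike.mem_coe, hS, mem_corner hi] at hxS
      rw [SetLike.mem_coe, hker] at hxk
      refine ⟨trunc k K x, suppIn_trunc K x, ?_⟩
      change eu * (trunc k K x * ev) = trunc k K x
      have h3 : trunc k K (i * x) = eu * trunc k K x := trunc_left (p := 2) u v hpu i x hiu hxk
      have h4 : trunc k K (x * i) = trunc k K x * ev := trunc_right (p := 2) u v hpv i x hiv hxk
      rw [hxS.1] at h3
      rw [hxS.2] at h4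
      rw [← h4, ← h3]
    · rintro ⟨c, hc, rfl⟩
      change eu * (c * ev) ∈ _
      have hc' : of k G u * c = c * of k G v := by
        ext h
        rw [coeff_of_mul, coeff_mul_of]
        by_cases hh : u * h = h * v
        · congr 1
          rw [eq_mul_inv_iff_mul_eq, mul_assoc, ← hh, ← mul_assoc, inv_mul_cancel, one_mul]
        · rw [hc, hc]
          · intro h3
            apply hh
            change u * (h * v⁻¹) = h * v⁻¹ * v at h3
            rw [inv_mul_cancel_right] at h3
            rw [← mul_assoc, mul_inv_eq_iff_eq_mul] at h3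
            exact h3
          · intro h3
            apply hh
            change u * (u⁻¹ * h) = u⁻¹ * h * v at h3
            rw [mul_inv_cancel_left] at h3
            rw [mul_assoc, eq_inv_mul_iff_mul_eq] at h3
            exact h3
      refine ⟨i * c * i, ⟨mul_mul_mem_corner i c, ?_⟩, ?_⟩
      · rw [SetLike.mem_coe, hker]
        calc of k G u * (i * c * i) = (of k G u * i) * c * i := by simp only [mul_assoc]
          _ = i * (of k G u * c) * i := by rw [hiu]; simp only [mul_assoc]
          _ = i * c * (of k G v * i) := by rw [hc']; simp only [mul_assoc]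
          _ = i * c * i * of k G v := by rw [hiv]; simp only [mul_assoc]
      · have hic : of k G u * (i * c) = (i * c) * of k G v := by
          rw [← mul_assoc, hiu, mul_assoc, hc', mul_assoc]
        have h3 : trunc k K (i * c) = eu * trunc k K c := trunc_left (p := 2) u v hpu i c hiu hc'
        have h4 : trunc k K (i * c * i) = trunc k K (i * c) * ev :=
          trunc_right (p := 2) u v hpv i (i * c) hiv hic
        rw [h4, h3, trunc_of_suppIn hc, mul_assoc]
  have C2 : (S ⊓ LinearMap.ker (tau k u v)) ⊓ LinearMap.ker (trunc k K) = S.map (tau k u v) := by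
    ext x
    constructor
    · rintro ⟨⟨hxS, hxk⟩, hxt⟩
      rw [SetLike.mem_coe, hS, mem_corner hi] at hxS
      rw [SetLike.mem_coe, hker] at hxk
      rw [SetLike.mem_coe, LinearMap.mem_ker] at hxt
      -- choose a linear order on `G`
      obtain ⟨⟨ord⟩⟩ : Nonempty (Nonempty (G ≃ Fin (Fintype.card G))) := ⟨⟨Fintype.equivFin G⟩⟩
      let y : MonoidAlgebra k G := trunc k {h | ord h < ord (u * h * v)} x
      have huv : ∀ h, u * (u * h * v) * v = h := by
        intro h
        calc u * (u * h * v) * v = (u * u) * h * (v * v) := by group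
          _ = h := by rw [hu, hv, one_mul, mul_one]
      have huinv : u⁻¹ = u := inv_eq_of_mul_eq_one_left hu
      have hvinv : v⁻¹ = v := inv_eq_of_mul_eq_one_left hv
      have hxsym : ∀ h, x.coeff (u * h * v) = x.coeff h := by
        intro h
        have h3 := congrArg (fun c : MonoidAlgebra k G => c.coeff (h * v)) hxk
        simp only [coeff_of_mul, coeff_mul_of] at h3
        rw [huinv, mul_inv_cancel_right, ← mul_assoc] at h3
        exact h3
      have hy : x = y + of k G u * y * of k G v := by
        ext h
        rw [coeff_add, Finsupp.add_apply, coeff_mul_of, coeff_of_mul, huinv, hvinv,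
          ← mul_assoc, coeff_trunc, coeff_trunc]
        by_cases hh : u * h * v = h
        · have h3 : x.coeff h = 0 := by
            have h4 := congrArg (fun c : MonoidAlgebra k G => c.coeff h) hxt
            have h5 : h ∈ K := by
              change u * h = h * v
              calc u * h = u * h * (v * v) := by rw [hv, mul_one]
                _ = h * v := by rw [← mul_assoc, hh]
            simp only [coeff_trunc_of_mem h5] at h4
            exact h4
          rw [hh, h3]
          simp
        · have hne : ord (u * h * v) ≠ ord h := fun h3 => hh (ord.injective h3)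
          rw [Set.mem_ofPred_eq, Set.mem_ofPred_eq, huv, hxsym]
          rcases lt_or_gt_of_ne hne with h3 | h3
          · rw [if_neg (not_lt_of_gt h3), if_pos h3, zero_add]
          · rw [if_pos h3, if_neg (not_lt_of_gt h3), add_zero]
      refine ⟨i * y * i, mul_mul_mem_corner i y, ?_⟩
      rw [tau_apply]
      calc i * y * i + of k G u * (i * y * i) * of k G v
          = i * y * i + (of k G u * i) * y * (i * of k G v) := by simp only [mul_assoc]
        _ = i * (y + of k G u * y * of k G v) * i := by
            rw [hiu, ← hiv, mul_add, add_mul]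
            simp only [mul_assoc]
        _ = x := by rw [← hy, hxS.1, hxS.2]
    · rintro ⟨y, hyS, rfl⟩
      rw [SetLike.mem_coe, hS, mem_corner hi] at hyS
      rw [tau_apply]
      refine ⟨⟨?_, ?_⟩, ?_⟩
      · rw [SetLike.mem_coe, hS, mem_corner hi]
        constructor
        · rw [mul_add, hyS.1, ← mul_assoc, ← mul_assoc, ← hiu, mul_assoc (of k G u) i y, hyS.1]
        · rw [add_mul, hyS.2, mul_assoc, hiv, ← mul_assoc, mul_assoc (of k G u) y i, hyS.2]
      · rw [SetLike.mem_coe, hker, mul_add, add_mul, ← mul_assoc, ← mul_assoc, hofu, one_mul,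
          mul_assoc _ (of k G v) (of k G v), hofv, mul_one, add_comm]
      · rw [SetLike.mem_coe, LinearMap.mem_ker]
        ext h
        rw [coeff_trunc]
        split_ifs with hh
        · rw [coeff_add, Finsupp.add_apply, coeff_mul_of, coeff_of_mul]
          have h3 : u⁻¹ * (h * v⁻¹) = h := by
            rw [inv_mul_eq_iff_eq_mul, mul_inv_eq_iff_eq_mul]
            have h4 : u * h = h * v := hh
            rw [h4, mul_assoc, hv, mul_one]
          rw [h3]
          have : y.coeff h + y.coeff h = (2 : k) * y.coeff h := by ring
          rw [this, h2, zero_mul]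
          rfl
        · rfl
  rw [C1, C2] at B
  omega

end Count

end Pool.Agent.TH12.Blk
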