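import Pool.Agent.TH12.Blk.Count

/-! The criterion over the residue field: if `iAi` looks the same under the twisted actions, then
the Brauer image of `i` at `l` is central. -/

set_option autoImplicit false

namespace Pool.Agent.TH12.Blk

open MonoidAlgebra

section Crit

variable {k : Type*} [Field k] [CharP k 2] {G : Type*} [Group G] [Fintype G]

omit [CharP k 2] [Fintype G] in
lemma sig_mem_corner {i : MonoidAlgebra k G} (hi : i * i = i) {u v : G}
    (hiu : of k G u * i = i * of k G u) (hiv : of k G v * i = i * of k G v)
    {x : MonoidAlgebra k G} (hx : x ∈ corner i) : of k G u * x * of k G v ∈ corner i := by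
  rw [mem_corner hi] at hx ⊢
  constructor
  · rw [← mul_assoc, ← mul_assoc, ← hiu, mul_assoc (of k G u) i x, hx.1]
  · rw [mul_assoc, hiv, ← mul_assoc, mul_assoc (of k G u) x i, hx.2]

lemma rank_eq {i : MonoidAlgebra k G} (hi : i * i = i) {u v u' v' : G}
    (hiu : of k G u * i = i * of k G u) (hiv : of k G v * i = i * of k G v)
    (hiu' : of k G u' * i = i * of k G u') (hiv' : of k G v' * i = i * of k G v')
    (Φ : corner i ≃ₗ[k] corner i)
    (hΦ : ∀ x y : corner i, (y : MonoidAlgebra k G) = of k G u * x * of k G v →
      (Φ y : MonoidAlgebra k G) = of k G u' * (Φ x) * of k G v') :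
    Module.finrank k ((corner i).map (tau k u v)) =
      Module.finrank k ((corner i).map (tau k u' v')) := by
  have hmem : ∀ {a b : G}, of k G a * i = i * of k G a → of k G b * i = i * of k G b →
      ∀ x ∈ corner i, tau k a b x ∈ corner i := by
    intro a b ha hb x hx
    rw [tau_apply]
    exact add_mem hx (sig_mem_corner hi ha hb hx)
  let T1 : corner i →ₗ[k] corner i := (tau k u v).restrict (hmem hiu hiv)
  let T2 : corner i →ₗ[k] corner i := (tau k u' v').restrict (hmem hiu' hiv')
  have hT1 : ∀ x : corner i, (T1 x : MonoidAlgebra k G) = tau k u v x := fun x => rfl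
  have hT2 : ∀ x : corner i, (T2 x : MonoidAlgebra k G) = tau k u' v' x := fun x => rfl
  have hcomm : ∀ x, Φ (T1 x) = T2 (Φ x) := by
    intro x
    have h1 : T1 x = x + ⟨of k G u * x * of k G v, sig_mem_corner hi hiu hiv x.2⟩ := by
      apply Subtype.ext
      rw [hT1, tau_apply]
      rfl
    rw [h1, map_add]
    apply Subtype.ext
    have h2 := hΦ x ⟨of k G u * x * of k G v, sig_mem_corner hi hiu hiv x.2⟩ rfl
    rw [hT2, tau_apply, Submodule.coe_add, h2]
  have h1 : (LinearMap.range T1).map (corner i).subtype = (corner i).map (tau k u v) := by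
    ext w
    constructor
    · rintro ⟨_, ⟨x, rfl⟩, rfl⟩
      exact ⟨x, x.2, rfl⟩
    · rintro ⟨x, hx, rfl⟩
      exact ⟨T1 ⟨x, hx⟩, ⟨⟨x, hx⟩, rfl⟩, rfl⟩
  have h2 : (LinearMap.range T2).map (corner i).subtype = (corner i).map (tau k u' v') := by
    ext w
    constructor
    · rintro ⟨_, ⟨x, rfl⟩, rfl⟩
      exact ⟨x, x.2, rfl⟩
    · rintro ⟨x, hx, rfl⟩
      exact ⟨T2 ⟨x, hx⟩, ⟨⟨x, hx⟩, rfl⟩, rfl⟩
  have h3 : (LinearMap.range T1).map Φ.toLinearMap = LinearMap.range T2 := by
    ext w
    constructor
    · rintro ⟨_, ⟨x, rfl⟩, rfl⟩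
      exact ⟨Φ x, (hcomm x).symm⟩
    · rintro ⟨x, rfl⟩
      refine ⟨T1 (Φ.symm x), ⟨_, rfl⟩, ?_⟩
      change Φ (T1 (Φ.symm x)) = T2 x
      rw [hcomm, LinearEquiv.apply_symm_apply]
  rw [← h1, ← h2, Submodule.finrank_map_subtype_eq, Submodule.finrank_map_subtype_eq, ← h3]
  exact (LinearEquiv.finrank_map_eq Φ _).symm

/-- **Criterion over `k`**, left and right version. -/
lemma central_of_equiv {z l g : G} (hz : z * z = 1) (hl : l * l = 1) (hg : g * l = z * g)
    {i : MonoidAlgebra k G} (hi : i * i = i)
    (hiz : of k G z * i = i * of k G z) (hil : of k G l * i = i * of k G l)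
    (hez : trunc k {h | z * h = h * z} i = 1)
    (Φ : corner i ≃ₗ[k] corner i)
    (hΦ : ∀ x y : corner i, (y : MonoidAlgebra k G) = of k G z * x * of k G l →
      (Φ y : MonoidAlgebra k G) = of k G l * (Φ x) * of k G l)
    (Ψ : corner i ≃ₗ[k] corner i)
    (hΨ : ∀ x y : corner i, (y : MonoidAlgebra k G) = of k G l * x * of k G z →
      (Ψ y : MonoidAlgebra k G) = of k G l * (Ψ x) * of k G l)
    (c : MonoidAlgebra k G) (hc : SuppIn {h | l * h = h * l} c) :
    c * trunc k {h | l * h = h * l} i = trunc k {h | l * h = h * l} i * c := by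
  set e := trunc k {h | l * h = h * l} i with he
  have hlp := isPGroup_zpowers hl
  have hee : e * e = e := by
    have h1 := trunc_left (p := 2) l l hlp i i hil hil
    rw [hi] at h1
    exact h1.symm
  have hes : SuppIn {h | l * h = h * l} e := suppIn_trunc _ _
  -- products of elements supported in the centralizer
  have hmul : ∀ a b : MonoidAlgebra k G, SuppIn {h | l * h = h * l} a →
      SuppIn {h | l * h = h * l} b → SuppIn {h | l * h = h * l} (a * b) := by
    intro a b ha hb x hx
    rw [coeff_mul_sum]
    refine Finset.sum_eq_zero fun y _ => ?_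
    by_cases hy : l * y = y * l
    · rw [hb (y⁻¹ * x), mul_zero]
      intro h1
      apply hx
      change l * (y⁻¹ * x) = y⁻¹ * x * l at h1
      calc l * x = (l * y) * (y⁻¹ * x) := by group
        _ = y * (l * (y⁻¹ * x)) := by rw [hy]; group
        _ = x * l := by rw [h1]; group
    · rw [ha y hy, zero_mul]
  have hll := count l l hl hl i hi hil hil
  rw [← he] at hll
  -- left version
  have left : ∀ c : MonoidAlgebra k G, SuppIn {h | l * h = h * l} c → e * c * e = c * e := by
    have h1 := count z l hz hl i hi hiz hil
    rw [hez, ← he] at h1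
    have h2 := rank_eq hi hiz hil hil hil Φ hΦ
    set W1 := (suppSub k {h | z * h = h * l}).map
      ((LinearMap.mulLeft k (1 : MonoidAlgebra k G)).comp (LinearMap.mulRight k e)) with hW1
    set W2 := (suppSub k {h | l * h = h * l}).map
      ((LinearMap.mulLeft k e).comp (LinearMap.mulRight k e)) with hW2
    let W3 := (suppSub k {h | l * h = h * l}).map (LinearMap.mulRight k e)
    have h3 : Module.finrank k W1 = Module.finrank k W2 := by omega
    let L : MonoidAlgebra k G ≃ₗ[k] MonoidAlgebra k G :=
      { toFun := fun x => of k G g * x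
        map_add' := fun x y => mul_add _ _ _
        map_smul' := fun r x => by simp
        invFun := fun x => of k G g⁻¹ * x
        left_inv := fun x => by
          change of k G g⁻¹ * (of k G g * x) = x
          rw [← mul_assoc, ← map_mul, inv_mul_cancel, map_one, one_mul]
        right_inv := fun x => by
          change of k G g * (of k G g⁻¹ * x) = x
          rw [← mul_assoc, ← map_mul, mul_inv_cancel, map_one, one_mul] }
    have h4 : W3.map L.toLinearMap = W1 := by
      ext w
      constructor
      · rintro ⟨_, ⟨x, hx, rfl⟩, rfl⟩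
        refine ⟨of k G g * x, ?_, ?_⟩
        · intro h hh
          rw [coeff_of_mul]
          apply hx
          intro h5
          apply hh
          change l * (g⁻¹ * h) = g⁻¹ * h * l at h5
          calc z * h = (z * g) * (g⁻¹ * h) := by group
            _ = g * (l * (g⁻¹ * h)) := by rw [← hg]; group
            _ = h * l := by rw [h5]; group
        · change 1 * (of k G g * x * e) = of k G g * (x * e)
          rw [one_mul, mul_assoc]
      · rintro ⟨x, hx, rfl⟩
        refine ⟨of k G g⁻¹ * x * e, ⟨of k G g⁻¹ * x, ?_, rfl⟩, ?_⟩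
        · intro h hh
          rw [coeff_of_mul]
          apply hx
          intro h5
          apply hh
          rw [inv_inv] at h5
          change z * (g * h) = g * h * l at h5
          have h6 : g * (l * h) = g * (h * l) := by
            calc g * (l * h) = (g * l) * h := by group
              _ = z * (g * h) := by rw [hg]; group
              _ = g * (h * l) := by rw [h5]; group
          exact mul_left_cancel h6
        · change of k G g * (of k G g⁻¹ * x * e) = 1 * (x * e)
          rw [mul_assoc, ← mul_assoc (of k G g), ← map_mul, mul_inv_cancel, map_one]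
    have h5 : Module.finrank k W3 = Module.finrank k W2 := by
      rw [← h3, ← h4]
      exact (LinearEquiv.finrank_map_eq L _).symm
    have h6 : W2 ≤ W3 := by
      rintro _ ⟨x, hx, rfl⟩
      exact ⟨e * x, hmul e x hes hx, mul_assoc _ _ _⟩
    have h7 : W2 = W3 := Submodule.eq_of_le_of_finrank_eq h6 h5.symm
    intro c hc
    have h8 : c * e ∈ W3 := ⟨c, hc, rfl⟩
    rw [← h7] at h8
    obtain ⟨y, _, hy⟩ := h8
    change e * (y * e) = c * e at hy
    rw [mul_assoc, ← hy, ← mul_assoc, hee]
  have right : ∀ c : MonoidAlgebra k G, SuppIn {h | l * h = h * l} c → e * c * e = e * c := by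
    have h1 := count l z hl hz i hi hil hiz
    rw [hez, ← he] at h1
    have h2 := rank_eq hi hil hiz hil hil Ψ hΨ
    set W1 := (suppSub k {h | l * h = h * z}).map
      ((LinearMap.mulLeft k e).comp (LinearMap.mulRight k (1 : MonoidAlgebra k G))) with hW1
    set W2 := (suppSub k {h | l * h = h * l}).map
      ((LinearMap.mulLeft k e).comp (LinearMap.mulRight k e)) with hW2
    let W3 := (suppSub k {h | l * h = h * l}).map (LinearMap.mulLeft k e)
    have h3 : Module.finrank k W1 = Module.finrank k W2 := by omega
    let L : MonoidAlgebra k G ≃ₗ[k] MonoidAlgebra k G :=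
      { toFun := fun x => x * of k G g⁻¹
        map_add' := fun x y => add_mul _ _ _
        map_smul' := fun r x => by simp
        invFun := fun x => x * of k G g
        left_inv := fun x => by
          change x * of k G g⁻¹ * of k G g = x
          rw [mul_assoc, ← map_mul, inv_mul_cancel, map_one, mul_one]
        right_inv := fun x => by
          change x * of k G g * of k G g⁻¹ = x
          rw [mul_assoc, ← map_mul, mul_inv_cancel, map_one, mul_one] }
    have h4 : W3.map L.toLinearMap = W1 := by
      ext w
      constructor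
      · rintro ⟨_, ⟨x, hx, rfl⟩, rfl⟩
        refine ⟨x * of k G g⁻¹, ?_, ?_⟩
        · intro h hh
          rw [coeff_mul_of]
          apply hx
          intro h5
          apply hh
          rw [inv_inv] at h5
          change l * (h * g) = h * g * l at h5
          have h6 : (l * h) * g = (h * z) * g := by
            calc (l * h) * g = l * (h * g) := by group
              _ = h * (g * l) := by rw [h5]; group
              _ = (h * z) * g := by rw [hg]; group
          exact mul_right_cancel h6
        · change e * (x * of k G g⁻¹ * 1) = e * x * of k G g⁻¹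
          rw [mul_one, mul_assoc]
      · rintro ⟨x, hx, rfl⟩
        refine ⟨e * (x * of k G g), ⟨x * of k G g, ?_, rfl⟩, ?_⟩
        · intro h hh
          rw [coeff_mul_of]
          apply hx
          intro h5
          apply hh
          change l * (h * g⁻¹) = h * g⁻¹ * z at h5
          calc l * h = (l * (h * g⁻¹)) * g := by group
            _ = h * g⁻¹ * (z * g) := by rw [h5]; group
            _ = h * l := by rw [← hg]; group
        · change e * (x * of k G g) * of k G g⁻¹ = e * (x * 1)
          rw [mul_assoc, mul_assoc, ← map_mul, mul_inv_cancel, map_one]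
    have h5 : Module.finrank k W3 = Module.finrank k W2 := by
      rw [← h3, ← h4]
      exact (LinearEquiv.finrank_map_eq L _).symm
    have h6 : W2 ≤ W3 := by
      rintro _ ⟨x, hx, rfl⟩
      exact ⟨x * e, hmul x e hx hes, rfl⟩
    have h7 : W2 = W3 := Submodule.eq_of_le_of_finrank_eq h6 h5.symm
    intro c hc
    have h8 : e * c ∈ W3 := ⟨c, hc, rfl⟩
    rw [← h7] at h8
    obtain ⟨y, _, hy⟩ := h8
    change e * (y * e) = e * c at hy
    rw [← hy, mul_assoc, mul_assoc, hee]
  rw [← left c hc, right c hc]

end Crit

end Pool.Agent.TH12.Blk
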