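import Mathlib

/-!
# Blocks, Brauer pairs, source idempotents and stable bases

`O` is a local ring (in the applications a complete discrete valuation ring) with residue field
`k`, and `G` is a finite group. The group algebra of a subgroup `H` of `G` over `k` is regarded as
the set of elements of `kG` supported in `H`.
-/

set_option autoImplicit false

namespace Pool.Agent.TH12.Blk

open MonoidAlgebra IsLocalRing

/-- `b` is a block idempotent of the ring `A`: a primitive idempotent of the centre of `A`. -/
structure IsBlockIdem {A : Type*} [Ring A] (b : A) : Prop where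
  ne_zero : b ≠ 0
  idem : b * b = b
  central : ∀ a : A, b * a = a * b
  prim : ∀ e : A, e * e = e → (∀ a : A, e * a = a * e) → e * b = e → e = 0 ∨ e = b

section

variable {O : Type*} [CommRing O] [IsLocalRing O] {G : Type*} [Group G]

open Classical in
/-- The Brauer map `br_P : OG → kC_G(P)`: the coefficients are reduced modulo the maximal ideal
of `O` and all group elements outside `C_G(P)` are dropped. -/
noncomputable def brauer (P : Subgroup G) (a : MonoidAlgebra O G) :
    MonoidAlgebra (ResidueField O) G :=
  ofCoeff ((mapRingHom G (residue O) a).coeff.filter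
    (· ∈ Subgroup.centralizer (P : Set G)))

/-- `a ∈ (RG)^P`, that is `u a u⁻¹ = a` for all `u ∈ P`. -/
def IsFixed {R : Type*} [CommRing R] (P : Subgroup G) (a : MonoidAlgebra R G) : Prop :=
  ∀ u ∈ P, of R G u * a = a * of R G u

/-- `i` is a primitive idempotent of `(OG)^P`. -/
structure IsPrimIdemFixed (P : Subgroup G) (i : MonoidAlgebra O G) : Prop where
  fixed : IsFixed P i
  ne_zero : i ≠ 0
  idem : i * i = i
  prim : ∀ e : MonoidAlgebra O G, IsFixed P e → e * e = e → e * i = e → i * e = e →
    e = 0 ∨ e = i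

/-- `e` is a block (idempotent) of `kC_G(P)`. Together with the `p`-subgroup `P` it is a Brauer
pair `(P, e)`. -/
structure IsBlockOfCentralizer {k : Type*} [Field k] (P : Subgroup G) (e : MonoidAlgebra k G) :
    Prop where
  supp : ∀ x, x ∉ Subgroup.centralizer (P : Set G) → e.coeff x = 0
  ne_zero : e ≠ 0
  idem : e * e = e
  central : IsFixed (Subgroup.centralizer (P : Set G)) e
  prim : ∀ f : MonoidAlgebra k G, (∀ x, x ∉ Subgroup.centralizer (P : Set G) → f.coeff x = 0) →
    f * f = f → IsFixed (Subgroup.centralizer (P : Set G)) f → f * e = f → f = 0 ∨ f = e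

/-- Inclusion `(Q, f) ≤ (P, e)` of Brauer pairs: `Q ≤ P` and some primitive idempotent `j` of
`(OG)^P` satisfies `br_P(j) e ≠ 0` and `br_Q(j) f ≠ 0`. -/
def PairLE (O : Type*) [CommRing O] [IsLocalRing O] (Q : Subgroup G)
    (f : MonoidAlgebra (ResidueField O) G) (P : Subgroup G)
    (e : MonoidAlgebra (ResidueField O) G) : Prop :=
  Q ≤ P ∧ ∃ j : MonoidAlgebra O G, IsPrimIdemFixed P j ∧ brauer P j * e ≠ 0 ∧ brauer Q j * f ≠ 0

/-- `b` is a block of `OG` with defect group `D` (a maximal `p`-subgroup with `br_D(b) ≠ 0`),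
`(D, e)` is a maximal `b`-Brauer pair and `i ∈ (OGb)^D` is a source idempotent of `b` (a primitive
idempotent of `(OGb)^D` with `br_D(i) ≠ 0`), compatible with `(D, e)`, that is `br_D(i) e ≠ 0`. -/
structure IsSourceData (p : ℕ) (b : MonoidAlgebra O G) (D : Subgroup G)
    (e : MonoidAlgebra (ResidueField O) G) (i : MonoidAlgebra O G) : Prop where
  block : IsBlockIdem b
  pgroup : IsPGroup p D
  brauer_ne : brauer D b ≠ 0
  maximal : ∀ Q : Subgroup G, IsPGroup p Q → D ≤ Q → brauer Q b ≠ 0 → Q = D
  pair : IsBlockOfCentralizer D e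
  pair_mem : brauer D b * e = e
  source : IsPrimIdemFixed D i
  source_mem : i * b = i
  source_brauer : brauer D i * e ≠ 0

/-- The morphisms `φ : P → D` of the fusion system `F_{(D,e)}(G,b)`, for `P ≤ D`: there are a block
`f` of `kC_G(P)` with `(P, f) ≤ (D, e)` and an element `g` with `(gPg⁻¹, gfg⁻¹) ≤ (D, e)` such that
`φ(u) = gug⁻¹` for all `u ∈ P`. -/
def IsFusion (O : Type*) [CommRing O] [IsLocalRing O] (D : Subgroup G)
    (e : MonoidAlgebra (ResidueField O) G) (P : Subgroup G) (φ : P →* D) : Prop :=
  ∃ (f : MonoidAlgebra (ResidueField O) G) (g : G), IsBlockOfCentralizer P f ∧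
    PairLE O P f D e ∧
    PairLE O (P.map (MulAut.conj g).toMonoidHom)
      (of (ResidueField O) G g * f * of (ResidueField O) G g⁻¹) D e ∧
    ∀ u : P, (φ u : G) = g * u * g⁻¹

/-- The source algebra `i OG i`. -/
noncomputable def sourceAlgebra {R : Type*} [CommRing R] (i : MonoidAlgebra R G) :
    Submodule R (MonoidAlgebra R G) :=
  LinearMap.range ((LinearMap.mulLeft R i).comp (LinearMap.mulRight R i))

/-- `X` is a `(D, D)`-stable `O`-basis of the source algebra `i OG i`. -/
structure IsStableBasis (D : Subgroup G) (i : MonoidAlgebra O G)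
    (X : Set (MonoidAlgebra O G)) : Prop where
  linInd : LinearIndependent O (Subtype.val : X → MonoidAlgebra O G)
  span : Submodule.span O X = sourceAlgebra i
  stable : ∀ u ∈ D, ∀ v ∈ D, ∀ x ∈ X, of O G u * x * of O G v ∈ X

/-- The `(D, D)`-biset `X` is `F_{(D,e)}(G,b)`-stable: for all `P ≤ D` and all morphisms
`φ : P → D` of the fusion system, the `(P, D)`-biset obtained from `X` by letting `P` act on the
left through `φ` is isomorphic to the restriction of `X` along `P ≤ D`, and likewise on the
right. -/
def IsFusionStable (D : Subgroup G) (e : MonoidAlgebra (ResidueField O) G)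
    (X : Set (MonoidAlgebra O G)) : Prop :=
  ∀ P : Subgroup G, P ≤ D → ∀ φ : P →* D, IsFusion O D e P φ →
    (∃ F : X ≃ X, ∀ (u : P) (v : D) (x y : X),
      (y : MonoidAlgebra O G) = of O G (φ u) * x * of O G v →
      (F y : MonoidAlgebra O G) = of O G u * F x * of O G v) ∧
    (∃ F : X ≃ X, ∀ (v : D) (u : P) (x y : X),
      (y : MonoidAlgebra O G) = of O G v * x * of O G (φ u) →
      (F y : MonoidAlgebra O G) = of O G v * F x * of O G u)

end

end Pool.Agent.TH12.Blk
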