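import Pool.Agent.TH12.Blk.Basic

/-! Direct summands of permutation modules of `p`-groups over local rings of residue
characteristic `p` are permutation modules. -/

set_option autoImplicit false

namespace Pool.Agent.TH12.Blk

open Module

section Local

variable {O : Type*} [CommRing O] [IsLocalRing O] {p : ℕ} [Fact p.Prime]
  [CharP (IsLocalRing.ResidueField O) p] {P : Type*} [Group P] [Finite P]

/-- An equivariant endomorphism of a transitive permutation module multiplies the sum of the
basis by a scalar; if the scalar is a unit, the endomorphism is bijective. -/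
lemma bijective_of_unit (hP : IsPGroup p P) {ι : Type*} [Fintype ι] [MulAction P ι]
    [MulAction.IsPretransitive P ι] {M : Type*} [AddCommGroup M] [Module O M]
    (ρ : P → M →ₗ[O] M) (b : Basis ι O M) (hb : ∀ g i, ρ g (b i) = b (g • i))
    (a : M →ₗ[O] M) (ha : ∀ g m, a (ρ g m) = ρ g (a m)) (r : O) (hr : IsUnit r)
    (har : a (∑ i, b i) = r • ∑ i, b i) : Function.Bijective a := by
  classical
  let k := IsLocalRing.ResidueField O
  let res := IsLocalRing.residue O
  let A : Matrix ι ι O := LinearMap.toMatrix b b a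
  have hA : ∀ i j, A i j = b.repr (a (b j)) i := fun i j => LinearMap.toMatrix_apply b b a i j
  have hrepr : ∀ (g : P) (m : M) (i : ι), b.repr (ρ g m) (g • i) = b.repr m i := by
    intro g m i
    have h1 : (b.coord (g • i)).comp (ρ g) = b.coord i := by
      apply b.ext
      intro j
      rw [LinearMap.comp_apply, hb, Basis.coord_apply, Basis.coord_apply, Basis.repr_self,
        Basis.repr_self, Finsupp.single_apply, Finsupp.single_apply]
      simp only [smul_left_cancel_iff]
    exact congrArg (fun f : M →ₗ[O] O => f m) h1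
  have hAg : ∀ (g : P) i j, A (g • i) (g • j) = A i j := by
    intro g i j
    rw [hA, hA, ← hb, ha, hrepr]
  have hrow : ∀ i, ∑ j, A i j = r := by
    intro i
    have h1 := congrArg (fun m => b.repr m i) har
    simp only [map_sum, Finsupp.coe_finsetSum, Finset.sum_apply, map_smul, Finsupp.smul_apply,
      Basis.repr_self] at h1
    simp only [hA]
    rw [h1]
    simp [Finsupp.single_apply]
  have hdet : IsUnit A.det := by
    by_contra hnu
    have h1 : (res.mapMatrix A).det = 0 := by
      rw [← RingHom.map_det]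
      exact (IsLocalRing.residue_eq_zero_iff _).2 ((IsLocalRing.mem_maximalIdeal _).2 hnu)
    obtain ⟨v, hv0, hv⟩ := Matrix.exists_mulVec_eq_zero_iff.2 h1
    let τ : P →* AddMonoid.End (ι → k) :=
      { toFun := fun g =>
          { toFun := fun w i => w (g⁻¹ • i)
            map_zero' := rfl
            map_add' := fun _ _ => rfl }
        map_one' := by
          ext w i
          change w ((1 : P)⁻¹ • i) = w i
          rw [inv_one, one_smul]
        map_mul' := fun g h => by
          ext w i
          change w ((g * h)⁻¹ • i) = w (h⁻¹ • g⁻¹ • i)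
          rw [mul_inv_rev, mul_smul] }
    have hτ : ∀ g w i, τ g w i = w (g⁻¹ • i) := fun _ _ _ => rfl
    let W : AddSubgroup (ι → k) :=
      { carrier := {w | (res.mapMatrix A).mulVec w = 0}
        add_mem' := by
          intro x y hx hy
          change (res.mapMatrix A).mulVec (x + y) = 0
          rw [Matrix.mulVec_add]
          have hx' : (res.mapMatrix A).mulVec x = 0 := hx
          have hy' : (res.mapMatrix A).mulVec y = 0 := hy
          rw [hx', hy', add_zero]
        zero_mem' := Matrix.mulVec_zero _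
        neg_mem' := by
          intro x hx
          change (res.mapMatrix A).mulVec (-x) = 0
          have hx' : (res.mapMatrix A).mulVec x = 0 := hx
          rw [Matrix.mulVec_neg, hx', neg_zero] }
    have hchar : ∀ w : ι → k, p • w = 0 := by
      intro w
      ext i
      rw [Pi.smul_apply, Pi.zero_apply, nsmul_eq_mul, CharP.cast_eq_zero, zero_mul]
    obtain ⟨w, hw, hw0, hwf⟩ := exists_fixed_vector hP hchar τ W (by
      intro g w hw
      change (res.mapMatrix A).mulVec (τ g w) = 0
      have hw' : (res.mapMatrix A).mulVec w = 0 := hw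
      ext i
      have h2 := congrArg (fun x : ι → k => x (g⁻¹ • i)) hw'
      simp only [Matrix.mulVec, dotProduct, RingHom.mapMatrix_apply, Matrix.map_apply,
        Pi.zero_apply] at h2 ⊢
      rw [← h2]
      refine Fintype.sum_equiv (MulAction.toPerm g⁻¹) _ _ ?_
      intro j
      rw [hτ, MulAction.toPerm_apply, hAg]) v hv hv0
    -- `w` is constant
    have hconst : ∀ i j, w i = w j := by
      intro i j
      obtain ⟨g, rfl⟩ := MulAction.exists_smul_eq P j i
      have h2 := congrArg (fun x : ι → k => x (g • j)) (hwf g)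
      simp only [hτ, inv_smul_smul] at h2
      exact h2.symm
    obtain ⟨i₀, hi₀⟩ : ∃ i, w i ≠ 0 := by
      by_contra h
      push Not at h
      exact hw0 (funext h)
    have hw' : (res.mapMatrix A).mulVec w = 0 := hw
    have h3 := congrArg (fun x : ι → k => x i₀) hw'
    simp only [Matrix.mulVec, dotProduct, RingHom.mapMatrix_apply, Matrix.map_apply,
      Pi.zero_apply] at h3
    have h4 : ∑ j, res (A i₀ j) * w j = res r * w i₀ := by
      rw [← hrow i₀, map_sum, Finset.sum_mul]
      refine Finset.sum_congr rfl fun j _ => ?_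
      rw [hconst j i₀]
    rw [h4] at h3
    rcases mul_eq_zero.1 h3 with h5 | h5
    · exact (hr.map res).ne_zero h5
    · exact hi₀ h5
  have h1 : ∀ x, LinearEquiv.ofIsUnitDet (f := a) (v := b) (v' := b) hdet x = a x := by
    intro x
    rfl
  have h2 := (LinearEquiv.ofIsUnitDet (f := a) (v := b) (v' := b) hdet).bijective
  exact h2

/-- The endomorphism ring of a transitive permutation module is local. -/
lemma bijective_or (hP : IsPGroup p P) {ι : Type*} [Fintype ι] [Nonempty ι] [MulAction P ι]
    [MulAction.IsPretransitive P ι] {M : Type*} [AddCommGroup M] [Module O M]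
    (ρ : P → M →ₗ[O] M) (b : Basis ι O M) (hb : ∀ g i, ρ g (b i) = b (g • i))
    (a : M →ₗ[O] M) (ha : ∀ g m, a (ρ g m) = ρ g (a m)) :
    Function.Bijective a ∨ Function.Bijective (LinearMap.id - a : M →ₗ[O] M) := by
  classical
  have hrepr : ∀ (g : P) (m : M) (i : ι), b.repr (ρ g m) (g • i) = b.repr m i := by
    intro g m i
    have h1 : (b.coord (g • i)).comp (ρ g) = b.coord i := by
      apply b.ext
      intro j
      rw [LinearMap.comp_apply, hb, Basis.coord_apply, Basis.coord_apply, Basis.repr_self,
        Basis.repr_self, Finsupp.single_apply, Finsupp.single_apply]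
      simp only [smul_left_cancel_iff]
    exact congrArg (fun f : M →ₗ[O] O => f m) h1
  have hsum : ∀ g, ρ g (∑ i, b i) = ∑ i, b i := by
    intro g
    rw [map_sum]
    refine Fintype.sum_equiv (MulAction.toPerm g) _ _ ?_
    intro i
    rw [hb, MulAction.toPerm_apply]
  obtain ⟨i₀⟩ := ‹Nonempty ι›
  let r := b.repr (a (∑ i, b i)) i₀
  have har : a (∑ i, b i) = r • ∑ i, b i := by
    apply b.repr.injective
    ext i
    obtain ⟨g, rfl⟩ := MulAction.exists_smul_eq P i₀ i
    have h1 : b.repr (a (∑ i, b i)) (g • i₀) = r := by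
      conv_lhs => rw [← hsum g, ha]
      exact hrepr g _ i₀
    rw [h1, LinearEquiv.map_smul, Finsupp.smul_apply, map_sum, Finsupp.coe_finsetSum,
      Finset.sum_apply]
    simp [Finsupp.single_apply]
  rcases IsLocalRing.isUnit_or_isUnit_one_sub_self r with h | h
  · exact Or.inl (bijective_of_unit hP ρ b hb a ha r h har)
  · right
    apply bijective_of_unit hP ρ b hb _ _ (1 - r) h
    · rw [LinearMap.sub_apply, har, sub_smul, one_smul]
      rfl
    · intro g m
      rw [LinearMap.sub_apply, LinearMap.sub_apply, map_sub, ha]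
      rfl

end Local

section Main

variable {O : Type*} [CommRing O] [IsLocalRing O] {p : ℕ} [Fact p.Prime]
  [CharP (IsLocalRing.ResidueField O) p] {P : Type*} [Group P] [Finite P]

/-- the step of the induction: an idempotent `q` whose compression to an orbit is bijective
splits off a copy of the permutation module on the orbit. -/
theorem exists_perm_basis (hP : IsPGroup p P) (n : ℕ) :
    ∀ (ι : Type) [Fintype ι] [MulAction P ι] (M : Type*) [AddCommGroup M] [Module O M]
      (ρ : P → M →ₗ[O] M) (b : Basis ι O M) (_ : ∀ g i, ρ g (b i) = b (g • i))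
      (e : M →ₗ[O] M) (_ : ∀ m, e (e m) = e m) (_ : ∀ g m, e (ρ g m) = ρ g (e m)),
      Fintype.card ι = n →
      ∃ (κ : Type) (_ : Fintype κ) (_ : MulAction P κ) (c : κ → M),
        LinearIndependent O c ∧ Submodule.span O (Set.range c) = LinearMap.range e ∧
          ∀ g j, ρ g (c j) = c (g • j) := by
  classical
  induction n using Nat.strong_induction_on with
  | _ n ih =>
  intro ι _ _ M _ _ ρ b hb e he hρ hn
  rcases isEmpty_or_nonempty ι with hι | ⟨⟨i₀⟩⟩
  · -- `M = 0`
    refine ⟨ι, inferInstance, inferInstance, b, b.linearIndependent, ?_, hb⟩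
    have hM : Subsingleton M := by
      refine ⟨fun x y => ?_⟩
      apply b.repr.injective
      ext i
      exact (hι.false i).elim
    exact Subsingleton.elim _ _
  let ω : Set ι := MulAction.orbit P i₀
  have hωstab : ∀ (g : P) i, g • i ∈ ω ↔ i ∈ ω := by
    intro g i
    constructor
    · rintro ⟨h, hh⟩
      refine ⟨g⁻¹ * h, ?_⟩
      change (g⁻¹ * h) • i₀ = i
      change h • i₀ = g • i at hh
      rw [mul_smul, hh, inv_smul_smul]
    · rintro ⟨h, rfl⟩
      exact ⟨g * h, mul_smul g h i₀⟩
  let p1 : M →ₗ[O] M := b.constr O (fun i => if i ∈ ω then b i else 0)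
  have hp1 : ∀ i, p1 (b i) = if i ∈ ω then b i else 0 := fun i => b.constr_basis O _ i
  let v1 : ω → M := fun i => b i
  let v2 : {i // i ∉ ω} → M := fun i => b i
  have hv1 : LinearIndependent O v1 := b.linearIndependent.comp _ Subtype.val_injective
  have hv2 : LinearIndependent O v2 := b.linearIndependent.comp _ Subtype.val_injective
  let N1 : Submodule O M := Submodule.span O (Set.range v1)
  let N2 : Submodule O M := Submodule.span O (Set.range v2)
  have p1_N1 : ∀ x ∈ N1, p1 x = x := by
    intro x hx
    have h1 : N1 ≤ LinearMap.ker (p1 - LinearMap.id) := by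
      rw [Submodule.span_le]
      rintro _ ⟨i, rfl⟩
      rw [SetLike.mem_coe, LinearMap.mem_ker, LinearMap.sub_apply]
      change p1 (b i) - b i = 0
      rw [hp1, if_pos i.2, sub_self]
    have h2 := h1 hx
    rw [LinearMap.mem_ker, LinearMap.sub_apply, sub_eq_zero] at h2
    exact h2
  have p1_N2 : ∀ x ∈ N2, p1 x = 0 := by
    intro x hx
    have h1 : N2 ≤ LinearMap.ker p1 := by
      rw [Submodule.span_le]
      rintro _ ⟨i, rfl⟩
      rw [SetLike.mem_coe, LinearMap.mem_ker]
      change p1 (b i) = 0
      rw [hp1, if_neg i.2]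
    exact h1 hx
  have p1_mem : ∀ x, p1 x ∈ N1 := by
    intro x
    have h1 : (⊤ : Submodule O M) ≤ N1.comap p1 := by
      rw [← b.span_eq, Submodule.span_le]
      rintro _ ⟨i, rfl⟩
      rw [SetLike.mem_coe, Submodule.mem_comap, hp1]
      split_ifs with hi
      · exact Submodule.subset_span ⟨⟨i, hi⟩, rfl⟩
      · exact zero_mem _
    exact h1 trivial
  have sub_mem' : ∀ x, x - p1 x ∈ N2 := by
    intro x
    have h1 : (⊤ : Submodule O M) ≤ N2.comap (LinearMap.id - p1) := by
      rw [← b.span_eq, Submodule.span_le]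
      rintro _ ⟨i, rfl⟩
      rw [SetLike.mem_coe, Submodule.mem_comap, LinearMap.sub_apply, hp1, LinearMap.id_apply]
      split_ifs with hi
      · rw [sub_self]
        exact zero_mem _
      · rw [sub_zero]
        exact Submodule.subset_span ⟨⟨i, hi⟩, rfl⟩
    exact h1 trivial
  have p1ρ : ∀ g x, p1 (ρ g x) = ρ g (p1 x) := by
    intro g x
    have h1 : p1.comp (ρ g) = (ρ g).comp p1 := by
      apply b.ext
      intro i
      rw [LinearMap.comp_apply, LinearMap.comp_apply, hb, hp1, hp1]
      simp only [hωstab]
      split_ifs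
      · rw [hb]
      · rw [map_zero]
    exact congrArg (fun f : M →ₗ[O] M => f x) h1
  have ρN1 : ∀ g, ∀ x ∈ N1, ρ g x ∈ N1 := by
    intro g x hx
    rw [← p1_N1 x hx, ← p1ρ]
    exact p1_mem _
  have ρN2 : ∀ g, ∀ x ∈ N2, ρ g x ∈ N2 := by
    intro g x hx
    have h1 := sub_mem' (ρ g x)
    rw [p1ρ, p1_N2 x hx, map_zero, sub_zero] at h1
    exact h1
  let b1 : Basis ω O N1 := Basis.span hv1
  have hb1 : ∀ i, ((b1 i : N1) : M) = b i := fun i => congrArg Subtype.val (Basis.span_apply hv1 i)
  let b2 : Basis {i // i ∉ ω} O N2 := Basis.span hv2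
  have hb2 : ∀ i, ((b2 i : N2) : M) = b i := fun i => congrArg Subtype.val (Basis.span_apply hv2 i)
  let ρ1 : P → N1 →ₗ[O] N1 := fun g => (ρ g).restrict (ρN1 g)
  let ρ2 : P → N2 →ₗ[O] N2 := fun g => (ρ g).restrict (ρN2 g)
  have hρ1 : ∀ g (i : ω), ρ1 g (b1 i) = b1 (g • i) := by
    intro g i
    apply Subtype.ext
    change ρ g (b1 i : M) = (b1 (g • i) : M)
    rw [hb1, hb1, hb]
    rfl
  let act2 : MulAction P {i // i ∉ ω} :=
    { smul := fun g i => ⟨g • i.1, fun h => i.2 ((hωstab g i.1).1 h)⟩
      one_smul := fun i => Subtype.ext (one_smul P i.1)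
      mul_smul := fun g h i => Subtype.ext (mul_smul g h i.1) }
  have hρ2 : ∀ g (i : {i // i ∉ ω}), ρ2 g (b2 i) = b2 (g • i) := by
    intro g i
    apply Subtype.ext
    change ρ g (b2 i : M) = (b2 (g • i) : M)
    rw [hb2, hb2, hb]
    rfl
  -- compression of an endomorphism to `N1`
  let comp : (M →ₗ[O] M) → (N1 →ₗ[O] N1) := fun q =>
    (p1.codRestrict N1 p1_mem).comp (q.comp N1.subtype)
  have hcomp : ∀ q (x : N1), (comp q x : M) = p1 (q x) := fun _ _ => rfl
  have hcard : Fintype.card {i // i ∉ ω} < n := by
    rw [← hn]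
    exact Fintype.card_subtype_lt (x := i₀) (fun h => h (MulAction.mem_orbit_self i₀))
  have main : ∀ q : M →ₗ[O] M, (∀ m, q (q m) = q m) → (∀ g m, q (ρ g m) = ρ g (q m)) →
      (∀ m, e (q m) = q (e m)) → Function.Bijective (comp q) →
      ((∀ m, e (q m) = q m) ∨ (∀ m, e (q m) = 0)) →
      ∃ (κ : Type) (_ : Fintype κ) (_ : MulAction P κ) (c : κ → M),
        LinearIndependent O c ∧ Submodule.span O (Set.range c) = LinearMap.range e ∧
          ∀ g j, ρ g (c j) = c (g • j) := by
    intro q hqq hqρ heq hbij hcase
    let s : M →ₗ[O] M := N1.subtype.comp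
      ((LinearEquiv.ofBijective (comp q) hbij).symm.toLinearMap.comp (p1.codRestrict N1 p1_mem))
    have hs_mem : ∀ x, s x ∈ N1 := fun x => Subtype.property _
    have h1 : ∀ x, p1 (q (s x)) = p1 x := by
      intro x
      have := (LinearEquiv.ofBijective (comp q) hbij).apply_symm_apply (p1.codRestrict N1 p1_mem x)
      exact congrArg Subtype.val this
    have h4 : ∀ x y, p1 x = p1 y → s x = s y := by
      intro x y hxy
      have h5 : p1.codRestrict N1 p1_mem x = p1.codRestrict N1 p1_mem y := Subtype.ext hxy
      change (((LinearEquiv.ofBijective (comp q) hbij).symm (p1.codRestrict N1 p1_mem x) : N1) : M)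
        = (((LinearEquiv.ofBijective (comp q) hbij).symm (p1.codRestrict N1 p1_mem y) : N1) : M)
      rw [h5]
    have h2 : ∀ x ∈ N1, s (q x) = x := by
      intro x hx
      have h5 : comp q ⟨s (q x), hs_mem _⟩ = comp q ⟨x, hx⟩ := by
        apply Subtype.ext
        rw [hcomp, hcomp]
        exact h1 (q x)
      exact congrArg Subtype.val (hbij.1 h5)
    have h3 : ∀ x ∈ N2, s x = 0 := by
      intro x hx
      have h5 := h4 x 0 (by rw [p1_N2 x hx, map_zero])
      rw [h5, map_zero]
    have sρ : ∀ g x, s (ρ g x) = ρ g (s x) := by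
      intro g x
      rw [← h2 (ρ g (s x)) (ρN1 g _ (hs_mem x))]
      apply h4
      rw [p1ρ, hqρ, p1ρ, h1]
    let f : M →ₗ[O] M := q.comp (s.comp q)
    have hf : ∀ x, f x = q (s (q x)) := fun _ => rfl
    let γ : M →ₗ[O] M := LinearMap.id - q.comp s
    have hγ : ∀ x, γ x = x - q (s x) := fun _ => rfl
    have hff : ∀ x, f (f x) = f x := by
      intro x
      rw [hf, hf, hqq, h2 _ (hs_mem _)]
    have hfρ : ∀ g x, f (ρ g x) = ρ g (f x) := by
      intro g x
      rw [hf, hf, hqρ, sρ, hqρ]
    have hef : ∀ x, e (f x) = f (e x) := by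
      intro x
      rcases hcase with h | h
      · have h5 : ∀ m, q (e m) = q m := fun m => by rw [← heq, h]
        rw [hf, hf, h, h5]
      · have h5 : ∀ m, q (e m) = 0 := fun m => by rw [← heq, h]
        rw [hf, hf, h, h5, map_zero, map_zero]
    have hγmem : ∀ x, γ x ∈ N2 := by
      intro x
      have h5 : p1 (γ x) = 0 := by rw [hγ, map_sub, h1, sub_self]
      have h6 := sub_mem' (γ x)
      rw [h5, sub_zero] at h6
      exact h6
    have hfγ : ∀ x, γ x - f (γ x) = x - f x := by
      intro x
      have h5 : f (q (s x)) = q (s x) := by rw [hf, hqq, h2 _ (hs_mem x)]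
      rw [hγ, map_sub, h5]
      abel
    have hγf : ∀ x, γ (f x) = 0 := by
      intro x
      rw [hγ, hf, h2 _ (hs_mem _), sub_self]
    have hγN2 : ∀ x ∈ N2, γ x = x := by
      intro x hx
      rw [hγ, h3 x hx, map_zero, sub_zero]
    let e2 : N2 →ₗ[O] N2 :=
      ((γ.comp (e.comp (LinearMap.id - f))).codRestrict N2 (fun _ => hγmem _)).comp N2.subtype
    have he2 : ∀ x : N2, (e2 x : M) = γ (e (x - f x)) := fun _ => rfl
    have hfe : ∀ x, f (e (x - f x)) = 0 := by
      intro x
      rw [← hef, map_sub, hff, sub_self, map_zero]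
    have he2e2 : ∀ x, e2 (e2 x) = e2 x := by
      intro x
      apply Subtype.ext
      rw [he2, he2, hfγ, hfe, sub_zero, he]
    have hγρ : ∀ g x, γ (ρ g x) = ρ g (γ x) := by
      intro g x
      rw [hγ, hγ, sρ, hqρ, map_sub]
    have he2ρ : ∀ g x, e2 (ρ2 g x) = ρ2 g (e2 x) := by
      intro g x
      apply Subtype.ext
      change (e2 (ρ2 g x) : M) = ρ g (e2 x : M)
      rw [he2, he2]
      change γ (e (ρ g x - f (ρ g x))) = _
      rw [hfρ, ← map_sub, hρ, hγρ]
    obtain ⟨κ', _, _, c', hc'li, hc'span, hc'ρ⟩ :=
      ih _ hcard {i // i ∉ ω} N2 ρ2 b2 hρ2 e2 he2e2 he2ρ rfl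
    let c : κ' → M := fun j => (c' j : M) - f (c' j)
    have hc : ∀ j, c j = (c' j : M) - f (c' j) := fun _ => rfl
    have hγc : ∀ j, γ (c j) = c' j := by
      intro j
      rw [hc, map_sub, hγf, sub_zero, hγN2 _ (c' j).2]
    have hcli : LinearIndependent O c := by
      apply LinearIndependent.of_comp γ
      have h5 : (γ ∘ c) = (N2.subtype ∘ c') := by
        funext j
        exact hγc j
      rw [h5]
      exact hc'li.map' _ (Submodule.ker_subtype N2)
    have hcρ : ∀ g j, ρ g (c j) = c (g • j) := by
      intro g j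
      have h5 : ρ g (c' j : M) = (c' (g • j) : M) := by
        rw [← hc'ρ]
        rfl
      rw [hc, hc, map_sub, ← hfρ, h5]
    -- the span of `c`
    have hcspan : Submodule.span O (Set.range c) =
        LinearMap.range (e.comp (LinearMap.id - f)) := by
      have h5 : Submodule.span O (Set.range c) =
          (Submodule.span O (Set.range c')).map ((LinearMap.id - f).comp N2.subtype) := by
        rw [Submodule.map_span, ← Set.range_comp]
        rfl
      rw [h5, hc'span]
      ext x
      constructor
      · rintro ⟨_, ⟨y, rfl⟩, rfl⟩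
        refine ⟨y, ?_⟩
        change e (y - f y) = (e2 y : M) - f (e2 y)
        rw [he2, hfγ, hfe, sub_zero]
      · rintro ⟨y, rfl⟩
        refine ⟨e2 ⟨γ y, hγmem y⟩, ⟨_, rfl⟩, ?_⟩
        change (e2 ⟨γ y, hγmem y⟩ : M) - f (e2 ⟨γ y, hγmem y⟩) = e (y - f y)
        rw [he2, hfγ, hfγ, hfe, sub_zero]
    have hfc : ∀ x ∈ Submodule.span O (Set.range c), f x = 0 := by
      intro x hx
      rw [hcspan] at hx
      obtain ⟨y, rfl⟩ := hx
      exact hfe y
    rcases hcase with hA | hB
    · -- `e q = q`
      let d : ω → M := fun i => q (b i)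
      have hd : ∀ i, d i = q (b i) := fun _ => rfl
      have hdspan : Submodule.span O (Set.range d) = N1.map q := by
        rw [Submodule.map_span, ← Set.range_comp]
        rfl
      have hdli : LinearIndependent O d := by
        apply LinearIndependent.of_comp s
        have h5 : (s ∘ d) = v1 := by
          funext i
          exact h2 _ (Submodule.subset_span ⟨i, rfl⟩)
        rw [h5]
        exact hv1
      refine ⟨ω ⊕ κ', inferInstance, inferInstance, Sum.elim d c, ?_, ?_, ?_⟩
      · rw [linearIndependent_sum]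
        refine ⟨hdli, hcli, ?_⟩
        change Disjoint (Submodule.span O (Set.range d)) (Submodule.span O (Set.range c))
        rw [Submodule.disjoint_def]
        intro x hx hx'
        rw [hdspan] at hx
        obtain ⟨y, hy, rfl⟩ := hx
        have h5 := hfc _ hx'
        rw [hf, hqq, h2 y hy] at h5
        exact h5
      · rw [Set.Sum.elim_range, Submodule.span_union, hdspan, hcspan]
        apply le_antisymm
        · rw [sup_le_iff]
          constructor
          · rintro _ ⟨y, _, rfl⟩
            exact ⟨q y, hA y⟩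
          · rintro _ ⟨y, rfl⟩
            exact ⟨_, rfl⟩
        · rintro _ ⟨y, rfl⟩
          have h5 : e y = f (e y) + e (y - f y) := by
            rw [map_sub, hef]
            abel
          rw [h5]
          exact Submodule.add_mem_sup ⟨s (q (e y)), hs_mem _, rfl⟩ ⟨y, rfl⟩
      · intro g j
        rcases j with j | j
        · change ρ g (d j) = d (g • j)
          rw [hd, hd, ← hqρ, hb]
          rfl
        · exact hcρ g j
    · -- `e q = 0`
      refine ⟨κ', inferInstance, inferInstance, c, hcli, ?_, hcρ⟩
      rw [hcspan]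
      have h5 : ∀ x, e (f x) = 0 := fun x => hB _
      ext x
      constructor
      · rintro ⟨y, rfl⟩
        exact ⟨_, rfl⟩
      · rintro ⟨y, rfl⟩
        refine ⟨y, ?_⟩
        change e (y - f y) = e y
        rw [map_sub, h5, sub_zero]
  -- apply locality to the orbit
  have : Nonempty ω := ⟨⟨i₀, MulAction.mem_orbit_self i₀⟩⟩
  have hpre : MulAction.IsPretransitive P ω := inferInstanceAs
    (MulAction.IsPretransitive P (MulAction.orbit P i₀))
  have hcommcomp : ∀ g m, comp e (ρ1 g m) = ρ1 g (comp e m) := by
    intro g m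
    apply Subtype.ext
    change p1 (e (ρ g m)) = ρ g (p1 (e m))
    rw [hρ, p1ρ]
  rcases bijective_or hP ρ1 b1 hρ1 (comp e) hcommcomp with h | h
  · exact main e he hρ (fun m => rfl) h (Or.inl he)
  · refine main (LinearMap.id - e) ?_ ?_ ?_ ?_ (Or.inr ?_)
    · intro m
      change (m - e m) - e (m - e m) = m - e m
      rw [map_sub, he, sub_self, sub_zero]
    · intro g m
      change ρ g m - e (ρ g m) = ρ g (m - e m)
      rw [hρ, map_sub]
    · intro m
      change e (m - e m) = e m - e (e m)
      rw [map_sub]
    · have h5 : comp (LinearMap.id - e) = LinearMap.id - comp e := by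
        ext m
        change p1 ((m : M) - e m) = (m : M) - p1 (e m)
        rw [map_sub, p1_N1 _ m.2]
      rw [h5]
      exact h
    · intro m
      change e (m - e m) = 0
      rw [map_sub, he, sub_self]

end Main

end Pool.Agent.TH12.Blk
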