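import Pool.Agent.TH12.Blk.Crit
import Pool.Agent.TH12.Blk.Perm
import Pool.Agent.TH12.Blk.Defs

/-! Reduction of stable bases modulo the maximal ideal, and existence of stable bases. -/

set_option autoImplicit false

namespace Pool.Agent.TH12.Blk

open MonoidAlgebra IsLocalRing Module

section

variable {O : Type*} [CommRing O] [IsLocalRing O] {G : Type*} [Group G] [Fintype G]

/-- reduction modulo the maximal ideal -/
noncomputable abbrev red (O : Type*) [CommRing O] [IsLocalRing O] (G : Type*) [Group G] :
    MonoidAlgebra O G →+* MonoidAlgebra (ResidueField O) G := mapRingHom G (residue O)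

omit [Fintype G] in
lemma coeff_red (a : MonoidAlgebra O G) (x : G) :
    (red O G a).coeff x = residue O (a.coeff x) := coeff_mapRingHom ..

omit [Fintype G] in
lemma red_of (g : G) : red O G (of O G g) = of (ResidueField O) G g := by
  simp [red, of_apply]

lemma exists_red (a : MonoidAlgebra (ResidueField O) G) : ∃ b : MonoidAlgebra O G,
    red O G b = a := by
  choose f hf using fun x => residue_surjective (R := O) (a.coeff x)
  refine ⟨ofCoeff (Finsupp.equivFunOnFinite.symm f), ?_⟩
  ext x
  rw [coeff_red]
  exact hf x

omit [Fintype G] in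
lemma brauer_eq (P : Subgroup G) (a : MonoidAlgebra O G) :
    brauer P a = trunc (ResidueField O) (Subgroup.centralizer (P : Set G) : Set G) (red O G a) := by
  rfl

lemma eq_sum_single {R : Type*} [CommRing R] (a : MonoidAlgebra R G) :
    a = ∑ g, a.coeff g • of R G g := by
  classical
  ext x
  rw [coeff_sum, Finsupp.finsetSum_apply]
  simp only [coeff_smul, Finsupp.smul_apply, coeff_of]
  simp

/-- The reductions of the elements of a basis of `i OG i` form a basis of `ī kG ī`. -/
lemma exists_basis_red (i : MonoidAlgebra O G) (hi : i * i = i) (X : Set (MonoidAlgebra O G))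
    (hX : LinearIndependent O (Subtype.val : X → MonoidAlgebra O G))
    (hspan : Submodule.span O X = corner i) :
    ∃ B : Basis X (ResidueField O) (corner (red O G i)),
      ∀ x, (B x : MonoidAlgebra (ResidueField O) G) = red O G x := by
  classical
  have hmem : ∀ x : X, (x : MonoidAlgebra O G) ∈ corner i := by
    intro x
    rw [← hspan]
    exact Submodule.subset_span x.2
  have hii : red O G i * red O G i = red O G i := by rw [← map_mul, hi]
  let v : X → corner i := fun x => ⟨x, hmem x⟩
  have hv : LinearIndependent O v := by
    apply LinearIndependent.of_comp (corner i).subtype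
    exact hX
  have hsp : ⊤ ≤ Submodule.span O (Set.range v) := by
    have h1 : (Submodule.span O (Set.range v)).map (corner i).subtype = corner i := by
      rw [Submodule.map_span, ← Set.range_comp]
      have h2 : Set.range ((corner i).subtype ∘ v) = X := by
        ext y
        constructor
        · rintro ⟨x, rfl⟩
          exact x.2
        · intro hy
          exact ⟨⟨y, hy⟩, rfl⟩
      rw [h2, hspan]
    intro y _
    have h2 : (y : MonoidAlgebra O G) ∈ (Submodule.span O (Set.range v)).map
        (corner i).subtype := by
      rw [h1]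
      exact y.2
    obtain ⟨w, hw, hwy⟩ := h2
    have h3 : w = y := Subtype.ext hwy
    rw [← h3]
    exact hw
  let BX : Basis X O (corner i) := Basis.mk hv hsp
  have hBX : ∀ x, BX x = v x := fun x => by rw [Basis.mk_apply]
  -- the reduced family
  have hmem' : ∀ x : X, red O G x ∈ corner (red O G i) := by
    intro x
    obtain ⟨h1, h2⟩ := (mem_corner hi _).1 (hmem x)
    rw [mem_corner hii, ← map_mul, ← map_mul, h1, h2]
    exact ⟨rfl, rfl⟩
  let w : X → corner (red O G i) := fun x => ⟨red O G x, hmem' x⟩
  have hw : LinearIndependent (ResidueField O) w := by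
    rw [linearIndependent_iff']
    intro s c hc x hx
    choose d hd using fun x => residue_surjective (R := O) (c x)
    let a : MonoidAlgebra O G := ∑ y ∈ s, d y • (y : MonoidAlgebra O G)
    have ha : red O G a = 0 := by
      have h1 := congrArg Subtype.val hc
      rw [Submodule.coe_sum, Submodule.coe_zero] at h1
      simp only [a, map_sum]
      refine Eq.trans ?_ h1
      refine Finset.sum_congr rfl fun y _ => ?_
      rw [Submodule.coe_smul]
      change _ = c y • red O G (y : MonoidAlgebra O G)
      rw [← hd]
      ext g
      rw [coeff_red, coeff_smul, coeff_smul, Finsupp.smul_apply, Finsupp.smul_apply, coeff_red]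
      simp
    have hac : ∀ g, a.coeff g ∈ maximalIdeal O := by
      intro g
      have h1 := congrArg (fun b : MonoidAlgebra (ResidueField O) G => b.coeff g) ha
      simp only [coeff_red] at h1
      exact (residue_eq_zero_iff _).1 h1
    have ha1 : a ∈ corner i := Submodule.sum_mem _ fun y _ => Submodule.smul_mem _ _ (hmem y)
    have ha2 : (⟨a, ha1⟩ : corner i) = ∑ g, a.coeff g • (⟨i * of O G g * i,
        mul_mul_mem_corner i _⟩ : corner i) := by
      apply Subtype.ext
      rw [Submodule.coe_sum]
      change a = _
      obtain ⟨h1, h2⟩ := (mem_corner hi a).1 ha1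
      conv_lhs => rw [← h2, ← h1, eq_sum_single a]
      rw [Finset.mul_sum, Finset.sum_mul]
      refine Finset.sum_congr rfl fun g _ => ?_
      rw [Submodule.coe_smul, mul_smul_comm, smul_mul_assoc]
    have ha3 : (⟨a, ha1⟩ : corner i) = ∑ y ∈ s, d y • BX y := by
      apply Subtype.ext
      rw [Submodule.coe_sum]
      refine Finset.sum_congr rfl fun y _ => ?_
      rw [Submodule.coe_smul, hBX]
    have h4 : BX.repr ⟨a, ha1⟩ x = d x := by
      rw [ha3, map_sum, Finsupp.finsetSum_apply]
      simp only [map_smul, Basis.repr_self, Finsupp.smul_apply, Finsupp.single_apply]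
      simp [hx]
    have h5 : BX.repr ⟨a, ha1⟩ x ∈ maximalIdeal O := by
      rw [ha2, map_sum, Finsupp.finsetSum_apply]
      refine Ideal.sum_mem _ fun g _ => ?_
      rw [map_smul, Finsupp.smul_apply, smul_eq_mul]
      exact Ideal.mul_mem_right _ _ (hac g)
    rw [h4] at h5
    rw [← hd, residue_eq_zero_iff]
    exact h5
  have hw2 : ⊤ ≤ Submodule.span (ResidueField O) (Set.range w) := by
    intro y _
    obtain ⟨b, hb⟩ := exists_red (O := O) (y : MonoidAlgebra (ResidueField O) G)
    have hc : i * b * i ∈ Submodule.span O X := by
      rw [hspan]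
      exact mul_mul_mem_corner i b
    have hred : red O G (i * b * i) = y := by
      rw [map_mul, map_mul, hb]
      obtain ⟨h1, h2⟩ := (mem_corner hii _).1 y.2
      rw [h1, h2]
    have key : ∀ c ∈ Submodule.span O X, ∀ (h : red O G c ∈ corner (red O G i)),
        (⟨red O G c, h⟩ : corner (red O G i)) ∈
          Submodule.span (ResidueField O) (Set.range w) := by
      intro c hc
      induction hc using Submodule.span_induction with
      | mem x hx => intro h; exact Submodule.subset_span ⟨⟨x, hx⟩, rfl⟩
      | zero =>
        intro h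
        have : (⟨red O G 0, h⟩ : corner (red O G i)) = 0 := Subtype.ext (map_zero _)
        rw [this]
        exact zero_mem _
      | add x y hx hy ihx ihy =>
        intro h
        have hx' : red O G x ∈ corner (red O G i) := by
          rw [hspan, mem_corner hi] at hx
          rw [mem_corner hii, ← map_mul, ← map_mul, hx.1, hx.2]
          exact ⟨rfl, rfl⟩
        have hy' : red O G y ∈ corner (red O G i) := by
          rw [hspan, mem_corner hi] at hy
          rw [mem_corner hii, ← map_mul, ← map_mul, hy.1, hy.2]
          exact ⟨rfl, rfl⟩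
        have : (⟨red O G (x + y), h⟩ : corner (red O G i)) =
            ⟨red O G x, hx'⟩ + ⟨red O G y, hy'⟩ := Subtype.ext (map_add _ _ _)
        rw [this]
        exact add_mem (ihx hx') (ihy hy')
      | smul r x hx ihx =>
        intro h
        have hx' : red O G x ∈ corner (red O G i) := by
          rw [hspan, mem_corner hi] at hx
          rw [mem_corner hii, ← map_mul, ← map_mul, hx.1, hx.2]
          exact ⟨rfl, rfl⟩
        have : (⟨red O G (r • x), h⟩ : corner (red O G i)) =
            residue O r • ⟨red O G x, hx'⟩ := by
          apply Subtype.ext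
          rw [Submodule.coe_smul]
          change red O G (r • x) = residue O r • red O G x
          ext g
          rw [coeff_red, coeff_smul, coeff_smul, Finsupp.smul_apply, Finsupp.smul_apply, coeff_red]
          simp
        rw [this]
        exact Submodule.smul_mem _ _ (ihx hx')
    have h1 := key _ hc (by rw [hred]; exact y.2)
    have h2 : (⟨red O G (i * b * i), by rw [hred]; exact y.2⟩ : corner (red O G i)) = y :=
      Subtype.ext hred
    rw [h2] at h1
    exact h1
  refine ⟨Basis.mk hw hw2, fun x => ?_⟩
  rw [Basis.mk_apply]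

/-- A permutation of the basis `X` that intertwines the actions of `(u, v)` and `(u', v')` gives
a linear automorphism of `ī kG ī` that does so. -/
lemma exists_equiv (i : MonoidAlgebra O G) (hi : i * i = i) (X : Set (MonoidAlgebra O G))
    (hX : LinearIndependent O (Subtype.val : X → MonoidAlgebra O G))
    (hspan : Submodule.span O X = corner i) (u v u' v' : G)
    (hst : ∀ x ∈ X, of O G u * x * of O G v ∈ X)
    (F : X ≃ X) (hF : ∀ x y : X, (y : MonoidAlgebra O G) = of O G u * x * of O G v →
      (F y : MonoidAlgebra O G) = of O G u' * F x * of O G v') :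
    ∃ Φ : corner (red O G i) ≃ₗ[ResidueField O] corner (red O G i),
      ∀ x y : corner (red O G i), (y : MonoidAlgebra (ResidueField O) G) =
        of (ResidueField O) G u * x * of (ResidueField O) G v →
        (Φ y : MonoidAlgebra (ResidueField O) G) =
          of (ResidueField O) G u' * (Φ x) * of (ResidueField O) G v' := by
  obtain ⟨B, hB⟩ := exists_basis_red i hi X hX hspan
  refine ⟨B.equiv B F, ?_⟩
  intro x y hxy
  -- compare two linear maps `corner → kG`
  let k := ResidueField O
  let f1 : corner (red O G i) →ₗ[k] MonoidAlgebra k G :=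
    (sig k u' v').comp ((corner (red O G i)).subtype.comp (B.equiv B F).toLinearMap)
  have hmem : ∀ x : corner (red O G i),
      of k G u * (x : MonoidAlgebra k G) * of k G v ∈ corner (red O G i) := by
    intro x
    have h1 : (⊤ : Submodule k (corner (red O G i))) ≤
        (corner (red O G i)).comap ((sig k u v).comp (corner (red O G i)).subtype) := by
      rw [← B.span_eq, Submodule.span_le]
      rintro _ ⟨x, rfl⟩
      rw [SetLike.mem_coe, Submodule.mem_comap, LinearMap.comp_apply, Submodule.subtype_apply,
        sig_apply, hB, ← red_of, ← red_of, ← map_mul, ← map_mul]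
      have h2 := (B ⟨_, hst x x.2⟩).2
      rw [hB] at h2
      exact h2
    have h2 := h1 (show x ∈ ⊤ from trivial)
    rw [Submodule.mem_comap, LinearMap.comp_apply, sig_apply] at h2
    exact h2
  let T : corner (red O G i) →ₗ[k] corner (red O G i) :=
    ((sig k u v).comp (corner (red O G i)).subtype).codRestrict (corner (red O G i)) (fun x => by
      rw [LinearMap.comp_apply, sig_apply]
      exact hmem x)
  have hT : ∀ x, (T x : MonoidAlgebra k G) = of k G u * x * of k G v := by
    intro x
    change sig k u v x = _
    rw [sig_apply]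
  let f2 : corner (red O G i) →ₗ[k] MonoidAlgebra k G :=
    (corner (red O G i)).subtype.comp ((B.equiv B F).toLinearMap.comp T)
  have h12 : f1 = f2 := by
    apply B.ext
    intro x
    have h1 : T (B x) = B ⟨_, hst x x.2⟩ := by
      apply Subtype.ext
      rw [hT, hB, hB, map_mul, map_mul, red_of, red_of]
    change sig k u' v' ((B.equiv B F) (B x) : MonoidAlgebra k G) =
      ((B.equiv B F) (T (B x)) : MonoidAlgebra k G)
    rw [h1, Basis.equiv_apply, Basis.equiv_apply, hB, hB, sig_apply,
      hF x ⟨_, hst x x.2⟩ rfl, map_mul, map_mul, red_of, red_of]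
  have h3 : T x = y := by
    apply Subtype.ext
    rw [hT, hxy]
  have h4 := congrArg (fun f : corner (red O G i) →ₗ[k] MonoidAlgebra k G => f x) h12
  change sig k u' v' ((B.equiv B F) x : MonoidAlgebra k G) =
      ((B.equiv B F) (T x) : MonoidAlgebra k G) at h4
  rw [h3, sig_apply] at h4
  exact h4.symm

end

section

variable {O : Type*} [CommRing O] [IsLocalRing O] {p : ℕ} [Fact p.Prime]
  [CharP (ResidueField O) p] {G : Type} [Group G] [Fintype G]

/-- Existence of a `(D, D)`-stable basis of `i OG i`. -/
theorem exists_stableBasis (D : Subgroup G) (hD : IsPGroup p D) (i : MonoidAlgebra O G)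
    (hi : i * i = i) (hfix : IsFixed D i) : ∃ X : Set (MonoidAlgebra O G),
      IsStableBasis D i X := by
  classical
  have hDD : IsPGroup p (D × D) := by
    rw [IsPGroup.iff_card] at hD ⊢
    obtain ⟨n, hn⟩ := hD
    exact ⟨n + n, by rw [Nat.card_prod, hn, pow_add]⟩
  let act : MulAction (D × D) G :=
    { smul := fun g x => (g.1 : G) * x * (g.2 : G)⁻¹
      one_smul := fun x => by
        change (1 : G) * x * (1 : G)⁻¹ = x
        group
      mul_smul := fun g h x => by
        change ((g.1 : G) * h.1) * x * ((g.2 : G) * h.2)⁻¹ = g.1 * (h.1 * x * (h.2 : G)⁻¹) * (g.2 : G)⁻¹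
        group }
  have hact : ∀ (g : D × D) (x : G), g • x = (g.1 : G) * x * (g.2 : G)⁻¹ := fun _ _ => rfl
  let ρ : D × D → MonoidAlgebra O G →ₗ[O] MonoidAlgebra O G := fun g =>
    sig O (g.1 : G) (g.2 : G)⁻¹
  have hρ : ∀ g x, ρ g x = of O G (g.1 : G) * x * of O G (g.2 : G)⁻¹ := fun g x => sig_apply _ _ _
  let b : Basis G O (MonoidAlgebra O G) := MonoidAlgebra.basis G O
  have hb' : ∀ x, b x = of O G x := fun x => by
    rw [MonoidAlgebra.basis_apply, of_apply]
  have hb : ∀ g x, ρ g (b x) = b (g • x) := by
    intro g x
    rw [hρ, hb', hb', hact, map_mul, map_mul]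
  let e : MonoidAlgebra O G →ₗ[O] MonoidAlgebra O G :=
    (LinearMap.mulLeft O i).comp (LinearMap.mulRight O i)
  have he : ∀ x, e x = i * x * i := by
    intro x
    change i * (x * i) = _
    rw [mul_assoc]
  have hfix' : ∀ u ∈ D, of O G u * i = i * of O G u := hfix
  obtain ⟨κ, _, _, c, hc, hcspan, hcρ⟩ := exists_perm_basis (O := O) (p := p) hDD
    (Fintype.card G) G (MonoidAlgebra O G) ρ b hb e
    (by
      intro x
      rw [he, he]
      calc i * (i * x * i) * i = (i * i) * x * (i * i) := by simp only [mul_assoc]
        _ = i * x * i := by rw [hi])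
    (by
      intro g x
      rw [he, he, hρ, hρ]
      have h1 := hfix' g.1 g.1.2
      have h2 := hfix' (g.2 : G)⁻¹ (inv_mem g.2.2)
      calc i * (of O G (g.1 : G) * x * of O G (g.2 : G)⁻¹) * i
          = (i * of O G (g.1 : G)) * x * (of O G (g.2 : G)⁻¹ * i) := by simp only [mul_assoc]
        _ = of O G (g.1 : G) * (i * x * i) * of O G (g.2 : G)⁻¹ := by
            rw [← h1, h2]
            simp only [mul_assoc])
    rfl
  refine ⟨Set.range c, ?_, hcspan, ?_⟩
  · exact hc.linearIndepOn_id
  · rintro u hu v hv _ ⟨j, rfl⟩
    refine ⟨((⟨u, hu⟩, ⟨v⁻¹, inv_mem hv⟩) : D × D) • j, ?_⟩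
    rw [← hcρ, hρ]
    simp

end

end Pool.Agent.TH12.Blk
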