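import Pool.Agent.TH12.Blk.Lift

/-! The general criterion for the failure of fusion stability. -/

set_option autoImplicit false

namespace Pool.Agent.TH12.Blk

open MonoidAlgebra IsLocalRing Module

section Min

variable {O : Type*} [CommRing O] [IsNoetherianRing O] {G : Type*} [Group G] [Fintype G]

/-- minimal elements of sets of idempotents -/
lemma exists_min_idem (T : Set (MonoidAlgebra O G)) (hne : T.Nonempty)
    (hT : ∀ e ∈ T, e * e = e) :
    ∃ e ∈ T, ∀ f ∈ T, f * e = f → e * f = f → f = e := by
  have hnoeth : IsNoetherian O (MonoidAlgebra O G) :=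
    isNoetherian_of_linearEquiv (coeffLinearEquiv O : MonoidAlgebra O G ≃ₗ[O] G →₀ O).symm
  let S : Set (Submodule O (MonoidAlgebra O G)) :=
    (fun e => LinearMap.range (LinearMap.mulLeft O (1 - e))) '' T
  have hS : S.Nonempty := hne.image _
  obtain ⟨_, ⟨e, he, rfl⟩, hmax⟩ := (inferInstance : WellFoundedGT
    (Submodule O (MonoidAlgebra O G))).wf.has_min S hS
  refine ⟨e, he, ?_⟩
  intro f hf h1 h2
  have h3 : LinearMap.range (LinearMap.mulLeft O (1 - e)) ≤
      LinearMap.range (LinearMap.mulLeft O (1 - f)) := by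
    rintro _ ⟨x, rfl⟩
    refine ⟨(1 - e) * x, ?_⟩
    change (1 - f) * ((1 - e) * x) = (1 - e) * x
    rw [← mul_assoc]
    congr 1
    rw [mul_sub, sub_mul, sub_mul, h1]
    simp
  have h4 := hmax _ ⟨f, hf, rfl⟩
  have h5 : LinearMap.range (LinearMap.mulLeft O (1 - e)) =
      LinearMap.range (LinearMap.mulLeft O (1 - f)) := by
    by_contra hne
    exact h4 (lt_of_le_of_ne h3 hne)
  have h6 : (1 - f) * 1 ∈ LinearMap.range (LinearMap.mulLeft O (1 - e)) := by
    rw [h5]
    exact ⟨1, rfl⟩
  obtain ⟨y, hy⟩ := h6
  change (1 - e) * y = (1 - f) * 1 at hy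
  have h7 : e * ((1 - f) * 1) = 0 := by
    rw [← hy, ← mul_assoc, mul_sub, hT e he]
    simp
  rw [mul_one, mul_sub, mul_one, h2, sub_eq_zero] at h7
  exact h7.symm

end Min

section Crit

variable {O : Type*} [CommRing O] [IsLocalRing O] [IsNoetherianRing O]
  [CharP (ResidueField O) 2] {G : Type} [Group G] [Fintype G]

omit [IsNoetherianRing O] [CharP (ResidueField O) 2] [Fintype G] in
lemma isFixed_red {D : Subgroup G} {a : MonoidAlgebra O G} (ha : IsFixed D a) :
    ∀ u ∈ D, of (ResidueField O) G u * red O G a = red O G a * of (ResidueField O) G u := by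
  intro u hu
  rw [← red_of, ← map_mul, ha u hu, map_mul]

omit [IsNoetherianRing O] in
lemma brauer_mul {D : Subgroup G} (hD : IsPGroup 2 D) {a b : MonoidAlgebra O G}
    (ha : IsFixed D a) (hb : IsFixed D b) : brauer D (a * b) = brauer D a * brauer D b := by
  rw [brauer_eq, brauer_eq, brauer_eq, map_mul]
  exact trunc_centralizer_mul (p := 2) D hD _ _ (isFixed_red ha) (isFixed_red hb)

omit [IsNoetherianRing O] [CharP (ResidueField O) 2] [Fintype G] in
lemma brauer_add (D : Subgroup G) (a b : MonoidAlgebra O G) :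
    brauer D (a + b) = brauer D a + brauer D b := by
  rw [brauer_eq, brauer_eq, brauer_eq, map_add, map_add]

omit [IsNoetherianRing O] [CharP (ResidueField O) 2] [Fintype G] in
lemma brauer_ne_of_le {D P : Subgroup G} (h : P ≤ D) {a : MonoidAlgebra O G}
    (ha : brauer D a ≠ 0) : brauer P a ≠ 0 := by
  intro h1
  apply ha
  rw [brauer_eq] at h1 ⊢
  ext x
  by_cases hx : x ∈ Subgroup.centralizer (D : Set G)
  · have hx' : x ∈ Subgroup.centralizer (P : Set G) := Subgroup.centralizer_le h hx
    have h2 := congrArg (fun c : MonoidAlgebra (ResidueField O) G => c.coeff x) h1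
    simp only [coeff_trunc_of_mem (show x ∈ (Subgroup.centralizer (P : Set G) : Set G)
      from hx')] at h2
    rw [coeff_trunc_of_mem (show x ∈ (Subgroup.centralizer (D : Set G) : Set G) from hx)]
    exact h2
  · rw [coeff_trunc_of_notMem (show x ∉ (Subgroup.centralizer (D : Set G) : Set G) from hx)]
    rfl

lemma suppIn_one {k : Type*} [CommRing k] {G : Type*} [Group G] (C : Subgroup G) :
    SuppIn (C : Set G) (1 : MonoidAlgebra k G) := by
  classical
  intro x hx
  rw [← map_one (of k G), coeff_of, if_neg]
  rintro rfl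
  exact hx (one_mem C)

/-- **The criterion.** -/
theorem criterion (D Q U : Subgroup G) (z l g τ : G) (hz : z * z = 1) (hl : l * l = 1)
    (hg : g * l = z * g) (hzD : z ∈ D) (hlD : l ∈ D) (hDz : ∀ d ∈ D, d * z = z * d)
    (hD2 : IsPGroup 2 D) (hQn : ∀ c, c * z = z * c → ∀ q ∈ Q, c * q * c⁻¹ ∈ Q) (hQD : Q ≤ D)
    (hQc : ∀ c, c * z = z * c → (∀ q ∈ Q, q * c = c * q) → c ∈ Q)
    (hU : ¬ 2 ∣ Nat.card U) (hUD : ∀ d ∈ D, ∀ u ∈ U, d * u * d⁻¹ ∈ U)
    (hτU : τ ∈ U) (hτ1 : τ ≠ 1) (hτl : τ * l = l * τ)
    (hmax : ∀ R : Subgroup G, IsPGroup 2 R → D ≤ R → R = D) :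
    ∃ (b : MonoidAlgebra O G) (e : MonoidAlgebra (ResidueField O) G) (i : MonoidAlgebra O G),
      IsSourceData 2 b D e i ∧ (∃ X : Set (MonoidAlgebra O G), IsStableBasis D i X) ∧
        ∀ X : Set (MonoidAlgebra O G), IsStableBasis D i X → ¬ IsFusionStable D e X := by
  classical
  have hp2 : Fact (Nat.Prime 2) := ⟨Nat.prime_two⟩
  let k := ResidueField O
  -- the idempotent of `U`
  have hcardk : ((Nat.card U : ℕ) : k) ≠ 0 := by
    rw [Ne, CharP.cast_eq_zero_iff k 2]
    exact hU
  have hcardO : IsUnit ((Nat.card U : ℕ) : O) := by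
    by_contra h
    apply hcardk
    have h1 : residue O ((Nat.card U : ℕ) : O) = 0 :=
      (residue_eq_zero_iff _).2 ((mem_maximalIdeal _).2 h)
    rw [map_natCast] at h1
    exact h1
  obtain ⟨cu, hcu⟩ := hcardO
  let N : MonoidAlgebra O G := ∑ u ∈ Finset.univ.filter (· ∈ U), of O G u
  have hNc : ∀ x, N.coeff x = if x ∈ U then 1 else 0 := by
    intro g
    simp only [N, coeff_sum, Finsupp.finsetSum_apply, coeff_of]
    rw [Finset.sum_ite_eq']
    simp
  have hNN : N * N = (cu : O) • N := by
    ext x
    rw [coeff_mul_sum, coeff_smul, Finsupp.smul_apply, hNc]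
    have h1 : ∀ y, N.coeff y * N.coeff (y⁻¹ * x) = if y ∈ U then (if x ∈ U then 1 else 0) else 0 := by
      intro y
      rw [hNc, hNc]
      by_cases hy : y ∈ U
      · rw [if_pos hy, if_pos hy, one_mul]
        congr 1
        rw [eq_iff_iff]
        exact Subgroup.mul_mem_cancel_left U (inv_mem hy)
      · rw [if_neg hy, if_neg hy, zero_mul]
    rw [Finset.sum_congr rfl fun y _ => h1 y, ← Finset.sum_filter, Finset.sum_const, hcu,
      nsmul_eq_mul, smul_eq_mul]
    congr 1
    rw [Nat.card_eq_fintype_card, Fintype.card_subtype]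
  let eU : MonoidAlgebra O G := ((cu⁻¹ : Oˣ) : O) • N
  have heU : eU * eU = eU := by
    simp only [eU]
    rw [smul_mul_smul_comm, hNN, smul_smul]
    congr 1
    rw [mul_assoc, Units.inv_mul, mul_one]
  have heUD : IsFixed D eU := by
    intro d hd
    rw [comm_iff]
    intro x
    simp only [eU]
    rw [coeff_smul, Finsupp.smul_apply, Finsupp.smul_apply, hNc, hNc]
    have h1 : d * x * d⁻¹ ∈ U ↔ x ∈ U := by
      constructor
      · intro h
        have := hUD d⁻¹ (inv_mem hd) _ h
        have e1 : d⁻¹ * (d * x * d⁻¹) * d⁻¹⁻¹ = x := by group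
        rwa [e1] at this
      · exact hUD d hd x
    simp only [h1]
  have hbrU : brauer D eU ≠ 0 := by
    intro h
    have h1 := congrArg (fun c : MonoidAlgebra k G => c.coeff 1) h
    rw [brauer_eq] at h1
    rw [coeff_trunc_of_mem (show (1 : G) ∈ (Subgroup.centralizer (D : Set G) : Set G) from
      one_mem _), coeff_red, coeff_smul, Finsupp.smul_apply, hNc, if_pos (one_mem U),
      smul_eq_mul, mul_one] at h1
    exact ((cu⁻¹ : Oˣ).isUnit.map (residue O)).ne_zero h1
  -- the source idempotent
  obtain ⟨i, ⟨hiD, hii, hieU, heUi, hbri⟩, himin⟩ := exists_min_idem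
    {e : MonoidAlgebra O G | IsFixed D e ∧ e * e = e ∧ e * eU = e ∧ eU * e = e ∧ brauer D e ≠ 0}
    ⟨eU, heUD, heU, heU, heU, hbrU⟩ (fun e he => he.2.1)
  have hi0 : i ≠ 0 := by
    rintro rfl
    apply hbri
    rw [brauer_eq, map_zero, map_zero]
  have hprim : IsPrimIdemFixed D i := by
    refine ⟨hiD, hi0, hii, ?_⟩
    intro f hfD hff hfi hif
    have h1 : brauer D f + brauer D (i - f) ≠ 0 := by
      rw [← brauer_add, add_sub_cancel]
      exact hbri
    by_cases h2 : brauer D f = 0
    · left
      have h3 : brauer D (i - f) ≠ 0 := by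
        intro h
        rw [h2, h, add_zero] at h1
        exact h1 rfl
      have h4 : i - f = i := by
        apply himin
        · refine ⟨?_, ?_, ?_, ?_, h3⟩
          · intro u hu
            rw [mul_sub, sub_mul, hiD u hu, hfD u hu]
          · rw [sub_mul, mul_sub, mul_sub, hii, hif, hfi, hff, sub_self, sub_zero]
          · have : f * eU = f := by
              calc f * eU = f * i * eU := by rw [hfi]
                _ = f := by rw [mul_assoc, hieU, hfi]
            rw [sub_mul, hieU, this]
          · have : eU * f = f := by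
              calc eU * f = eU * (i * f) := by rw [hif]
                _ = f := by rw [← mul_assoc, heUi, hif]
            rw [mul_sub, heUi, this]
        · rw [sub_mul, hii, hfi]
        · rw [mul_sub, hii, hif]
      rw [sub_eq_self] at h4
      exact h4
    · right
      apply himin f _ hfi hif
      refine ⟨hfD, hff, ?_, ?_, h2⟩
      · calc f * eU = f * i * eU := by rw [hfi]
          _ = f := by rw [mul_assoc, hieU, hfi]
      · calc eU * f = eU * (i * f) := by rw [hif]
          _ = f := by rw [← mul_assoc, heUi, hif]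
  -- the block
  obtain ⟨b, ⟨hbc, hbb, hbi⟩, hbmin⟩ := exists_min_idem
    {e : MonoidAlgebra O G | (∀ a, e * a = a * e) ∧ e * e = e ∧ e * i = i}
    ⟨1, fun a => by rw [one_mul, mul_one], one_mul 1, one_mul i⟩ (fun e he => he.2.1)
  have hb0 : b ≠ 0 := by
    rintro rfl
    rw [zero_mul] at hbi
    exact hi0 hbi.symm
  have hblock : IsBlockIdem b := by
    refine ⟨hb0, hbb, hbc, ?_⟩
    intro e hee hec heb
    have h1 : e * i = 0 ∨ e * i = i := by
      apply hprim.prim
      · intro u hu
        rw [← mul_assoc, ← hec, mul_assoc, hiD u hu, mul_assoc]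
      · calc e * i * (e * i) = e * (i * e) * i := by simp only [mul_assoc]
          _ = (e * e) * (i * i) := by rw [← hec i]; simp only [mul_assoc]
          _ = e * i := by rw [hee, hii]
      · rw [mul_assoc, hii]
      · rw [← mul_assoc, ← hec i, mul_assoc, hii]
    rcases h1 with h1 | h1
    · left
      have h2 : b - e = b := by
        apply hbmin
        · refine ⟨fun a => ?_, ?_, ?_⟩
          · rw [sub_mul, mul_sub, hbc, hec]
          · rw [sub_mul, mul_sub, mul_sub, hbb, hee, heb, ← hec b, heb, sub_self, sub_zero]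
          · rw [sub_mul, hbi, h1, sub_zero]
        · rw [sub_mul, hbb, heb]
        · rw [mul_sub, hbb, ← hec b, heb]
      rw [sub_eq_self] at h2
      exact h2
    · right
      apply hbmin e ⟨hec, hee, h1⟩ heb
      rw [← hec b, heb]
  have hbD : IsFixed D b := fun u _ => (hbc _).symm
  have hbrbi : brauer D b * brauer D i = brauer D i := by
    rw [← brauer_mul hD2 hbD hiD, hbi]
  have hbrb : brauer D b ≠ 0 := by
    intro h
    rw [h, zero_mul] at hbrbi
    exact hbri hbrbi.symm
  -- idempotents of `kC_G(D)`
  have hCD : ∀ c ∈ Subgroup.centralizer (D : Set G), c ∈ Q := by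
    intro c hc
    rw [Subgroup.mem_centralizer_iff] at hc
    exact hQc c (hc z hzD).symm fun q hq => hc q (hQD hq)
  have hidD : ∀ f : MonoidAlgebra k G,
      (∀ x, x ∉ Subgroup.centralizer (D : Set G) → f.coeff x = 0) → f * f = f →
      IsFixed (Subgroup.centralizer (D : Set G)) f → f = 0 ∨ f = 1 := by
    intro f hs hff hfx
    refine idem_trivial (p := 2) (Subgroup.centralizer (D : Set G))
      (Subgroup.centralizer (D : Set G)) ?_ ?_ ?_ le_rfl f hff hs hfx
    · intro c hc q hq
      exact mul_mem (mul_mem hc hq) (inv_mem hc)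
    · exact hD2.to_le fun c hc => hQD (hCD c hc)
    · intro c hc _
      exact hc
  have hblockD : IsBlockOfCentralizer D (1 : MonoidAlgebra k G) := by
    refine ⟨suppIn_one _, one_ne_zero, one_mul 1, ?_, ?_⟩
    · intro u _
      rw [one_mul, mul_one]
    · intro f hs hff hfx _
      exact hidD f hs hff hfx
  have hbrb1 : brauer D b = 1 := by
    have h1 := hidD (brauer D b) (by
      intro x hx
      rw [brauer_eq]
      exact coeff_trunc_of_notMem hx _) (by rw [← brauer_mul hD2 hbD hbD, hbb]) (by
      intro c hc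
      rw [brauer_eq, comm_iff]
      intro x
      have h2 : (of k G c) * red O G b = red O G b * of k G c := by
        rw [← red_of, ← map_mul, ← map_mul, hbc]
      have h3 := (comm_iff c (red O G b)).1 h2 x
      by_cases hx : x ∈ Subgroup.centralizer (D : Set G)
      · have hx' : c * x * c⁻¹ ∈ Subgroup.centralizer (D : Set G) :=
          mul_mem (mul_mem hc hx) (inv_mem hc)
        rw [coeff_trunc_of_mem (show x ∈ (Subgroup.centralizer (D : Set G) : Set G) from hx),
          coeff_trunc_of_mem (show c * x * c⁻¹ ∈ (Subgroup.centralizer (D : Set G) : Set G)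
            from hx'), h3]
      · have hx' : c * x * c⁻¹ ∉ Subgroup.centralizer (D : Set G) := by
          intro h4
          apply hx
          have h5 := mul_mem (mul_mem (inv_mem hc) h4) hc
          have e1 : c⁻¹ * (c * x * c⁻¹) * c = x := by group
          rwa [e1] at h5
        rw [coeff_trunc_of_notMem (show x ∉ (Subgroup.centralizer (D : Set G) : Set G) from hx),
          coeff_trunc_of_notMem (show c * x * c⁻¹ ∉ (Subgroup.centralizer (D : Set G) : Set G)
            from hx')])
    rcases h1 with h1 | h1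
    · exact absurd h1 hbrb
    · exact h1
  have hdata : IsSourceData 2 b D (1 : MonoidAlgebra k G) i := by
    refine ⟨hblock, hD2, hbrb, fun R hR hDR _ => hmax R hR hDR, hblockD, ?_, hprim, ?_, ?_⟩
    · rw [hbrb1, one_mul]
    · rw [← hbc, hbi]
    · rw [mul_one]
      exact hbri
  refine ⟨b, 1, i, hdata, exists_stableBasis (p := 2) D hD2 i hii hiD, ?_⟩
  -- failure of stability
  intro X hX hstab
  have hred : red O G i * red O G i = red O G i := by rw [← map_mul, hii]
  have hredz := isFixed_red hiD z hzD
  have hredl := isFixed_red hiD l hlD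
  -- idempotents of `kC_G(z)` fixed by `Q`
  let Cz : Subgroup G := Subgroup.centralizer {z}
  have hCz : ∀ c, c ∈ Cz ↔ z * c = c * z := by
    intro c
    rw [Subgroup.mem_centralizer_iff]
    simp
  have hidz : ∀ f : MonoidAlgebra k G, SuppIn {h | z * h = h * z} f → f * f = f →
      (∀ q ∈ Q, of k G q * f = f * of k G q) → f = 0 ∨ f = 1 := by
    intro f hs hff hfx
    refine idem_trivial (p := 2) Cz Q ?_ (hD2.to_le hQD) ?_ ?_ f hff ?_ hfx
    · intro c hc q hq
      exact hQn c ((hCz c).1 hc).symm q hq
    · intro c hc h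
      exact hQc c ((hCz c).1 hc).symm h
    · intro q hq
      rw [hCz]
      exact (hDz q (hQD hq)).symm
    · intro x hx
      exact hs x fun h => hx ((hCz x).2 h)
  have hidl : ∀ f : MonoidAlgebra k G, SuppIn {h | l * h = h * l} f → f * f = f →
      (∀ c, l * c = c * l → of k G c * f = f * of k G c) → f = 0 ∨ f = 1 := by
    intro f hs hff hfx
    have hgg : of k G g⁻¹ * of k G g = 1 := by rw [← map_mul, inv_mul_cancel, map_one]
    have hgg' : of k G g * of k G g⁻¹ = 1 := by rw [← map_mul, mul_inv_cancel, map_one]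
    have h1 := hidz (of k G g * f * of k G g⁻¹) (by
      intro x hx
      rw [coeff_mul_of, coeff_of_mul]
      apply hs
      intro h
      apply hx
      change l * (g⁻¹ * (x * g⁻¹⁻¹)) = g⁻¹ * (x * g⁻¹⁻¹) * l at h
      change z * x = x * z
      rw [inv_inv] at h
      have h2 : g * (l * (g⁻¹ * (x * g))) = g * (g⁻¹ * (x * g) * l) := by rw [h]
      have h3 : g * (l * (g⁻¹ * (x * g))) = z * x * g := by
        calc g * (l * (g⁻¹ * (x * g))) = (g * l) * g⁻¹ * x * g := by group
          _ = z * x * g := by rw [hg]; group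
      have h4 : g * (g⁻¹ * (x * g) * l) = x * z * g := by
        calc g * (g⁻¹ * (x * g) * l) = x * (g * l) := by group
          _ = x * z * g := by rw [hg]; group
      rw [h3, h4] at h2
      exact mul_right_cancel h2) (by
      calc of k G g * f * of k G g⁻¹ * (of k G g * f * of k G g⁻¹)
          = of k G g * f * (of k G g⁻¹ * of k G g) * f * of k G g⁻¹ := by simp only [mul_assoc]
        _ = of k G g * (f * f) * of k G g⁻¹ := by rw [hgg]; simp only [mul_assoc, mul_one, one_mul]
        _ = of k G g * f * of k G g⁻¹ := by rw [hff]) (by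
      intro q hq
      have h2 : l * (g⁻¹ * q * g) = (g⁻¹ * q * g) * l := by
        have h3 : q * z = z * q := hDz q (hQD hq)
        have h4 : g⁻¹ * z = l * g⁻¹ := by
          rw [inv_mul_eq_iff_eq_mul, ← mul_assoc, hg, mul_inv_cancel_right]
        calc l * (g⁻¹ * q * g) = (l * g⁻¹) * q * g := by group
          _ = g⁻¹ * (z * q) * g := by rw [← h4]; group
          _ = g⁻¹ * q * (z * g) := by rw [← h3]; group
          _ = (g⁻¹ * q * g) * l := by rw [← hg]; group
      have h5 := hfx _ h2
      have h6 : of k G q * of k G g = of k G g * of k G (g⁻¹ * q * g) := by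
        rw [← map_mul, ← map_mul]
        congr 1
        group
      have h7 : of k G (g⁻¹ * q * g) * of k G g⁻¹ = of k G g⁻¹ * of k G q := by
        rw [← map_mul, ← map_mul]
        congr 1
        group
      calc of k G q * (of k G g * f * of k G g⁻¹)
          = (of k G q * of k G g) * f * of k G g⁻¹ := by simp only [mul_assoc]
        _ = of k G g * (of k G (g⁻¹ * q * g) * f) * of k G g⁻¹ := by
            rw [h6]; simp only [mul_assoc]
        _ = of k G g * f * (of k G (g⁻¹ * q * g) * of k G g⁻¹) := by
            rw [h5]; simp only [mul_assoc]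
        _ = of k G g * f * of k G g⁻¹ * of k G q := by rw [h7]; simp only [mul_assoc])
    have hback : of k G g⁻¹ * (of k G g * f * of k G g⁻¹) * of k G g = f := by
      calc of k G g⁻¹ * (of k G g * f * of k G g⁻¹) * of k G g
          = (of k G g⁻¹ * of k G g) * f * (of k G g⁻¹ * of k G g) := by simp only [mul_assoc]
        _ = f := by rw [hgg, one_mul, mul_one]
    rcases h1 with h1 | h1
    · left
      rw [← hback, h1, mul_zero, zero_mul]
    · right
      rw [← hback, h1, mul_one, hgg]
  have hlp := isPGroup_zpowers hl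
  have hzp := isPGroup_zpowers hz
  -- comparison of the truncations with `brauer D`
  have hne : ∀ u ∈ D, trunc k {h | u * h = h * u} (red O G i) ≠ 0 := by
    intro u hu h
    apply hbri
    rw [brauer_eq]
    ext x
    by_cases hx : x ∈ Subgroup.centralizer (D : Set G)
    · rw [coeff_trunc_of_mem (show x ∈ (Subgroup.centralizer (D : Set G) : Set G) from hx)]
      have h1 := congrArg (fun c : MonoidAlgebra k G => c.coeff x) h
      have h2 : x ∈ {h | u * h = h * u} := Subgroup.mem_centralizer_iff.1 hx u hu
      simp only [coeff_trunc_of_mem h2] at h1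
      exact h1
    · rw [coeff_trunc_of_notMem (show x ∉ (Subgroup.centralizer (D : Set G) : Set G) from hx)]
      rfl
  have hez : trunc k {h | z * h = h * z} (red O G i) = 1 := by
    have h1 := hidz (trunc k {h | z * h = h * z} (red O G i)) (suppIn_trunc _ _) (by
      rw [← trunc_left (p := 2) z z hzp _ _ hredz hredz, hred]) (by
      intro q hq
      rw [comm_iff]
      intro x
      have h2 := (comm_iff q (red O G i)).1 (isFixed_red hiD q (hQD hq)) x
      have hqz : q * z = z * q := hDz q (hQD hq)
      have hiff : z * (q * x * q⁻¹) = q * x * q⁻¹ * z ↔ z * x = x * z := by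
        have hq' : q⁻¹ * z = z * q⁻¹ := by
          rw [inv_mul_eq_iff_eq_mul, ← mul_assoc, hqz, mul_inv_cancel_right]
        constructor
        · intro h
          have h3 : q * (z * x) * q⁻¹ = q * (x * z) * q⁻¹ := by
            calc q * (z * x) * q⁻¹ = (q * z) * x * q⁻¹ := by group
              _ = z * (q * x * q⁻¹) := by rw [hqz]; group
              _ = q * x * (q⁻¹ * z) := by rw [h]; group
              _ = q * (x * z) * q⁻¹ := by rw [hq']; group
          exact mul_left_cancel (mul_right_cancel h3)
        · intro h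
          calc z * (q * x * q⁻¹) = (z * q) * x * q⁻¹ := by group
            _ = q * (z * x) * q⁻¹ := by rw [← hqz]; group
            _ = q * x * (z * q⁻¹) := by rw [h]; group
            _ = q * x * q⁻¹ * z := by rw [← hq']; group
      rw [coeff_trunc, coeff_trunc, h2]
      simp only [Set.mem_ofPred_eq, hiff])
    rcases h1 with h1 | h1
    · exact absurd h1 (hne z hzD)
    · exact h1
  -- the fusion morphism
  let P : Subgroup G := Subgroup.zpowers l
  have hPD : P ≤ D := by
    rw [Subgroup.zpowers_le]
    exact hlD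
  have hglg : g * l * g⁻¹ = z := by rw [hg, mul_inv_cancel_right]
  have hmap : P.map (MulAut.conj g).toMonoidHom ≤ D := by
    rw [MonoidHom.map_zpowers, Subgroup.zpowers_le]
    change g * l * g⁻¹ ∈ D
    rw [hglg]
    exact hzD
  have hφmem : ∀ u : P, g * (u : G) * g⁻¹ ∈ D := fun u => hmap ⟨u, u.2, rfl⟩
  let φ : P →* D :=
    { toFun := fun u => ⟨g * u * g⁻¹, hφmem u⟩
      map_one' := by
        apply Subtype.ext
        change g * (1 : G) * g⁻¹ = 1
        group
      map_mul' := fun u v => by
        apply Subtype.ext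
        change g * ((u : G) * v) * g⁻¹ = g * u * g⁻¹ * (g * v * g⁻¹)
        group }
  have hfus : IsFusion O D (1 : MonoidAlgebra k G) P φ := by
    refine ⟨1, g, ?_, ⟨hPD, i, hprim, ?_, ?_⟩, ⟨hmap, i, hprim, ?_, ?_⟩, fun u => rfl⟩
    · refine ⟨suppIn_one _, one_ne_zero, one_mul 1, ?_, ?_⟩
      · intro u _
        rw [one_mul, mul_one]
      · intro f hs hff hfx _
        apply hidl f
        · intro x hx
          apply hs
          intro h
          exact hx (Subgroup.mem_centralizer_iff.1 h l (Subgroup.mem_zpowers l))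
        · exact hff
        · intro c hc
          apply hfx
          rw [Subgroup.mem_centralizer_iff]
          rintro w ⟨n, rfl⟩
          exact (Commute.zpow_left (show Commute l c from hc) n).eq
    · rw [mul_one]
      exact hbri
    · rw [mul_one]
      exact brauer_ne_of_le hPD hbri
    · rw [mul_one]
      exact hbri
    · have hgg' : of k G g * of k G g⁻¹ = 1 := by rw [← map_mul, mul_inv_cancel, map_one]
      rw [mul_one, hgg', mul_one]
      exact brauer_ne_of_le hmap hbri
  obtain ⟨⟨F, hF⟩, ⟨F', hF'⟩⟩ := hstab P hPD φ hfus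
  have hspan : Submodule.span O X = corner i := hX.span
  have hφl : ((φ ⟨l, Subgroup.mem_zpowers l⟩ : D) : G) = z := hglg
  obtain ⟨Φ, hΦ⟩ := exists_equiv i hii X hX.linInd hspan z l l l
    (fun x hx => hX.stable z hzD l hlD x hx) F (by
      intro x y hxy
      have := hF ⟨l, Subgroup.mem_zpowers l⟩ ⟨l, hlD⟩ x y (by rw [hφl]; exact hxy)
      exact this)
  obtain ⟨Ψ, hΨ⟩ := exists_equiv i hii X hX.linInd hspan l z l l
    (fun x hx => hX.stable l hlD z hzD x hx) F' (by
      intro x y hxy
      have := hF' ⟨l, hlD⟩ ⟨l, Subgroup.mem_zpowers l⟩ x y (by rw [hφl]; exact hxy)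
      exact this)
  have hcent := central_of_equiv hz hl hg hred hredz hredl hez Φ hΦ Ψ hΨ
  have hel : trunc k {h | l * h = h * l} (red O G i) = 1 := by
    have h1 := hidl (trunc k {h | l * h = h * l} (red O G i)) (suppIn_trunc _ _) (by
      rw [← trunc_left (p := 2) l l hlp _ _ hredl hredl, hred]) (by
      intro c hc
      apply hcent
      intro x hx
      rw [coeff_of, if_neg]
      rintro rfl
      exact hx hc)
    rcases h1 with h1 | h1
    · exact absurd h1 (hne l hlD)
    · exact h1
  have heUl : trunc k {h | l * h = h * l} (red O G eU) = 1 := by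
    have h1 := trunc_left (p := 2) l l hlp (red O G i) (red O G eU) hredl
      (isFixed_red heUD l hlD)
    rw [← map_mul, hieU, hel, one_mul] at h1
    exact h1.symm
  have h1 := congrArg (fun c : MonoidAlgebra k G => c.coeff τ) heUl
  rw [coeff_trunc_of_mem (show τ ∈ {h | l * h = h * l} from hτl.symm), coeff_red, coeff_smul,
    Finsupp.smul_apply, hNc, if_pos hτU, smul_eq_mul, mul_one, ← map_one (of k G), coeff_of,
    if_neg (fun h => hτ1 h.symm)] at h1
  exact ((cu⁻¹ : Oˣ).isUnit.map (residue O)).ne_zero h1

end Crit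

end Pool.Agent.TH12.Blk
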