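import Pool.Agent.TH12.Blk.Basic

/-! Multiplicativity of the truncation maps (Brauer maps) in characteristic `p`, and idempotents of
`(kC)^Q`. -/

set_option autoImplicit false

namespace Pool.Agent.TH12.Blk

open MonoidAlgebra

section

variable {k : Type*} [CommRing k] {p : ℕ} [Fact p.Prime] [CharP k p] {G : Type*} [Group G]
  [Fintype G]

open Classical in
lemma sum_conj_fixed_elem (u : G) (hu : IsPGroup p (Subgroup.zpowers u))
    (f : G → k) (hf : ∀ y, f (u * y * u⁻¹) = f y) :
    ∑ y, f y = ∑ y with u * y = y * u, f y := by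
  have h1 : ∀ w ∈ Subgroup.zpowers u, ∀ y, f (w * y * w⁻¹) = f y := by
    let S : Subgroup G :=
      { carrier := {w | ∀ y, f (w * y * w⁻¹) = f y}
        mul_mem' := by
          intro a b ha hb y
          have h2 := ha (b * y * b⁻¹)
          rw [hb y] at h2
          rw [← h2]
          congr 1
          group
        one_mem' := by
          intro y
          simp
        inv_mem' := by
          intro a ha y
          have h2 := ha (a⁻¹ * y * a⁻¹⁻¹)
          rw [← h2]
          congr 1
          group }
    have h3 : Subgroup.zpowers u ≤ S := by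
      rw [Subgroup.zpowers_le]
      exact hf
    intro w hw
    exact h3 hw
  rw [sum_conj_fixed (Subgroup.zpowers u) hu f h1]
  congr 1
  ext y
  rw [Finset.mem_filter, Finset.mem_filter]
  refine and_congr_right fun _ => ?_
  rw [Subgroup.mem_centralizer_iff]
  constructor
  · intro h
    exact h u (Subgroup.mem_zpowers u)
  · rintro h w ⟨n, rfl⟩
    exact (Commute.zpow_left (show Commute u y from h) n).eq

lemma trunc_left (u v : G) (hu : IsPGroup p (Subgroup.zpowers u)) (a b : MonoidAlgebra k G)
    (ha : of k G u * a = a * of k G u) (hb : of k G u * b = b * of k G v) :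
    trunc k {h | u * h = h * v} (a * b) =
      trunc k {h | u * h = h * u} a * trunc k {h | u * h = h * v} b := by
  classical
  ext h
  by_cases hh : u * h = h * v
  · rw [coeff_trunc_of_mem (by exact hh), coeff_mul_sum, coeff_mul_sum]
    rw [sum_conj_fixed_elem (p := p) u hu]
    · rw [Finset.sum_filter]
      refine Finset.sum_congr rfl fun y _ => ?_
      split_ifs with hy
      · rw [coeff_trunc_of_mem (by exact hy), coeff_trunc_of_mem]
        change u * (y⁻¹ * h) = y⁻¹ * h * v
        have h1 : u * y⁻¹ = y⁻¹ * u := by
          rw [eq_inv_mul_iff_mul_eq, ← mul_assoc, mul_inv_eq_iff_eq_mul]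
          exact hy.symm
        rw [← mul_assoc, h1, mul_assoc, hh, mul_assoc]
      · rw [coeff_trunc_of_notMem (by exact hy), zero_mul]
    · intro y
      have h1 := (comm_iff u a).1 ha y
      rw [h1]
      congr 1
      have h2 := congrArg (fun c : MonoidAlgebra k G => c.coeff (u * (y⁻¹ * h))) hb
      simp only [coeff_of_mul, coeff_mul_of, inv_mul_cancel_left] at h2
      rw [h2]
      congr 1
      have h3 : h * v⁻¹ = u⁻¹ * h := by
        rw [mul_inv_eq_iff_eq_mul, mul_assoc, ← hh]
        group
      calc (u * y * u⁻¹)⁻¹ * h = u * y⁻¹ * (u⁻¹ * h) := by group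
        _ = u * (y⁻¹ * h) * v⁻¹ := by rw [← h3]; group
  · rw [coeff_trunc_of_notMem (by exact hh), coeff_mul_sum]
    symm
    refine Finset.sum_eq_zero fun y _ => ?_
    by_cases hy : u * y = y * u
    · rw [coeff_trunc_of_notMem (x := y⁻¹ * h), mul_zero]
      intro h1
      apply hh
      change u * (y⁻¹ * h) = y⁻¹ * h * v at h1
      calc u * h = (u * y) * (y⁻¹ * h) := by group
        _ = y * (u * (y⁻¹ * h)) := by rw [hy]; group
        _ = h * v := by rw [h1]; group
    · rw [coeff_trunc_of_notMem (by exact hy), zero_mul]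

lemma trunc_right (u v : G) (hv : IsPGroup p (Subgroup.zpowers v)) (a b : MonoidAlgebra k G)
    (ha : of k G v * a = a * of k G v) (hb : of k G u * b = b * of k G v) :
    trunc k {h | u * h = h * v} (b * a) =
      trunc k {h | u * h = h * v} b * trunc k {h | v * h = h * v} a := by
  classical
  ext h
  by_cases hh : u * h = h * v
  · rw [coeff_trunc_of_mem (by exact hh), coeff_mul_sum', coeff_mul_sum']
    rw [sum_conj_fixed_elem (p := p) v hv]
    · rw [Finset.sum_filter]
      refine Finset.sum_congr rfl fun y _ => ?_
      split_ifs with hy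
      · rw [coeff_trunc_of_mem (x := y) (by exact hy), coeff_trunc_of_mem]
        change u * (h * y⁻¹) = h * y⁻¹ * v
        have h1 : v * y⁻¹ = y⁻¹ * v := by
          rw [eq_inv_mul_iff_mul_eq, ← mul_assoc, mul_inv_eq_iff_eq_mul]
          exact hy.symm
        rw [← mul_assoc, hh, mul_assoc, h1, mul_assoc]
      · rw [coeff_trunc_of_notMem (x := y) (by exact hy), mul_zero]
    · intro y
      have h1 := (comm_iff v a).1 ha y
      rw [h1]
      congr 1
      have h2 := congrArg (fun c : MonoidAlgebra k G => c.coeff (u * (h * y⁻¹))) hb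
      simp only [coeff_of_mul, coeff_mul_of, inv_mul_cancel_left] at h2
      rw [h2]
      congr 1
      calc h * (v * y * v⁻¹)⁻¹ = h * v * y⁻¹ * v⁻¹ := by group
        _ = u * (h * y⁻¹) * v⁻¹ := by rw [← hh]; group
  · rw [coeff_trunc_of_notMem (by exact hh), coeff_mul_sum']
    symm
    refine Finset.sum_eq_zero fun y _ => ?_
    by_cases hy : v * y = y * v
    · rw [coeff_trunc_of_notMem (x := h * y⁻¹), zero_mul]
      intro h1
      apply hh
      change u * (h * y⁻¹) = h * y⁻¹ * v at h1
      calc u * h = (u * (h * y⁻¹)) * y := by group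
        _ = h * y⁻¹ * (v * y) := by rw [h1]; group
        _ = h * v := by rw [hy]; group
    · rw [coeff_trunc_of_notMem (x := y) (by exact hy), mul_zero]

lemma trunc_centralizer_mul (P : Subgroup G) (hP : IsPGroup p P) (a b : MonoidAlgebra k G)
    (ha : ∀ u ∈ P, of k G u * a = a * of k G u) (hb : ∀ u ∈ P, of k G u * b = b * of k G u) :
    trunc k (Subgroup.centralizer (P : Set G) : Set G) (a * b) =
      trunc k (Subgroup.centralizer (P : Set G) : Set G) a *
        trunc k (Subgroup.centralizer (P : Set G) : Set G) b := by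
  classical
  ext h
  by_cases hh : h ∈ Subgroup.centralizer (P : Set G)
  · rw [coeff_trunc_of_mem (by exact hh), coeff_mul_sum, coeff_mul_sum]
    rw [sum_conj_fixed (p := p) P hP]
    · rw [Finset.sum_filter]
      refine Finset.sum_congr rfl fun y _ => ?_
      split_ifs with hy
      · rw [coeff_trunc_of_mem (x := y) (by exact hy), coeff_trunc_of_mem]
        exact mul_mem (inv_mem hy) hh
      · rw [coeff_trunc_of_notMem (x := y) (by exact hy), zero_mul]
    · intro u hu y
      rw [(comm_iff u a).1 (ha u hu) y]
      congr 1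
      rw [← (comm_iff u b).1 (hb u hu) (y⁻¹ * h)]
      congr 1
      have h1 : u * h = h * u := Subgroup.mem_centralizer_iff.1 hh u hu
      have h3 : h * u⁻¹ = u⁻¹ * h := by
        rw [mul_inv_eq_iff_eq_mul, mul_assoc, ← h1]
        group
      calc (u * y * u⁻¹)⁻¹ * h = u * y⁻¹ * (u⁻¹ * h) := by group
        _ = u * (y⁻¹ * h) * u⁻¹ := by rw [← h3]; group
  · rw [coeff_trunc_of_notMem (by exact hh), coeff_mul_sum]
    symm
    refine Finset.sum_eq_zero fun y _ => ?_
    by_cases hy : y ∈ Subgroup.centralizer (P : Set G)
    · rw [coeff_trunc_of_notMem (x := y⁻¹ * h), mul_zero]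
      intro h1
      apply hh
      have : y * (y⁻¹ * h) ∈ Subgroup.centralizer (P : Set G) := mul_mem hy h1
      rwa [mul_inv_cancel_left] at this
    · rw [coeff_trunc_of_notMem (x := y) (by exact hy), zero_mul]

end

section

variable {k : Type*} [Field k] {p : ℕ} [Fact p.Prime] [CharP k p] {G : Type*} [Group G]
  [Fintype G]

open Classical in
/-- Let `C` be a subgroup of `G` with a normal `p`-subgroup `Q` that contains its centralizer in
`C`. The only idempotents of `(kC)^Q` are `0` and `1`. -/
lemma idem_trivial (C Q : Subgroup G) (hn : ∀ c ∈ C, ∀ q ∈ Q, c * q * c⁻¹ ∈ Q)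
    (hQ : IsPGroup p Q) (hc : ∀ c ∈ C, (∀ q ∈ Q, q * c = c * q) → c ∈ Q)
    (hQC : Q ≤ C)
    (x : MonoidAlgebra k G) (hx : x * x = x) (hs : SuppIn (C : Set G) x)
    (hcomm : ∀ q ∈ Q, of k G q * x = x * of k G q) : x = 0 ∨ x = 1 := by
  -- the sum of the elements of `Q`
  let N : MonoidAlgebra k G := ∑ q ∈ Finset.univ.filter (· ∈ Q), of k G q
  have hNc : ∀ g, N.coeff g = if g ∈ Q then 1 else 0 := by
    intro g
    simp only [N, coeff_sum, Finsupp.finsetSum_apply, coeff_of]
    rw [Finset.sum_ite_eq']
    simp
  have hN0 : N ≠ 0 := by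
    intro h
    have h1 := hNc 1
    rw [h, if_pos (one_mem Q)] at h1
    simp at h1
  let s : k := ∑ q with q ∈ Q, x.coeff q
  have key : ∀ y : MonoidAlgebra k G, SuppIn (C : Set G) y →
      (∀ q ∈ Q, of k G q * y = y * of k G q) → y * N = (∑ q with q ∈ Q, y.coeff q) • N := by
    intro y hy hyc
    ext g
    rw [coeff_smul, Finsupp.smul_apply, hNc, coeff_mul_sum]
    by_cases hgC : g ∈ C
    · rw [sum_conj_fixed (p := p) Q hQ]
      · by_cases hg : g ∈ Q
        · rw [if_pos hg, smul_eq_mul, mul_one]
          -- go back to the full sum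
          rw [← sum_conj_fixed (p := p) Q hQ (fun y' => y.coeff y' * N.coeff (y'⁻¹ * g))]
          · rw [Finset.sum_filter]
            refine Finset.sum_congr rfl fun z _ => ?_
            rw [hNc]
            by_cases hz : z ∈ Q
            · rw [if_pos hz, if_pos (mul_mem (inv_mem hz) hg), mul_one]
            · rw [if_neg hz, if_neg, mul_zero]
              intro h1
              apply hz
              have := mul_mem hg (inv_mem h1)
              simpa using this
          · intro u hu z
            rw [(comm_iff u y).1 (hyc u hu) z, hNc, hNc]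
            congr 1
            have : (u * z * u⁻¹)⁻¹ * g ∈ Q ↔ z⁻¹ * g ∈ Q := by
              have e : (u * z * u⁻¹)⁻¹ * g = u * (z⁻¹ * g) * (g⁻¹ * u * g)⁻¹ := by group
              rw [e]
              have h2 : g⁻¹ * u * g ∈ Q := by
                have := hn g⁻¹ (inv_mem hgC) u hu
                rwa [inv_inv] at this
              rw [Subgroup.mul_mem_cancel_right Q (inv_mem h2), Subgroup.mul_mem_cancel_left Q hu]
            simp only [this]
        · rw [if_neg hg, smul_zero]
          refine Finset.sum_eq_zero fun z hz => ?_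
          rw [Finset.mem_filter] at hz
          by_cases hzC : z ∈ C
          · have hzQ : z ∈ Q := hc z hzC fun q hq => Subgroup.mem_centralizer_iff.1 hz.2 q hq
            rw [hNc, if_neg, mul_zero]
            intro h1
            apply hg
            have := mul_mem hzQ h1
            rwa [mul_inv_cancel_left] at this
          · rw [hy z hzC, zero_mul]
      · intro u hu z
        rw [(comm_iff u y).1 (hyc u hu) z, hNc, hNc]
        congr 1
        have : (u * z * u⁻¹)⁻¹ * g ∈ Q ↔ z⁻¹ * g ∈ Q := by
          have e : (u * z * u⁻¹)⁻¹ * g = u * (z⁻¹ * g) * (g⁻¹ * u * g)⁻¹ := by group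
          rw [e]
          have h2 : g⁻¹ * u * g ∈ Q := by
            have := hn g⁻¹ (inv_mem hgC) u hu
            rwa [inv_inv] at this
          rw [Subgroup.mul_mem_cancel_right Q (inv_mem h2), Subgroup.mul_mem_cancel_left Q hu]
        simp only [this]
    · have hgQ : g ∉ Q := fun h => hgC (hQC h)
      rw [if_neg hgQ, smul_zero]
      refine Finset.sum_eq_zero fun z _ => ?_
      by_cases hz : z ∈ C
      · rw [hNc, if_neg, mul_zero]
        intro h1
        apply hgC
        have := mul_mem hz (hQC h1)
        rwa [mul_inv_cancel_left] at this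
      · rw [hy z hz, zero_mul]
  -- no nonzero idempotent kills `N`
  have kill : ∀ y : MonoidAlgebra k G, y * y = y → (∀ q ∈ Q, of k G q * y = y * of k G q) →
      y * N = 0 → y = 0 := by
    intro y hyy hyc hyN
    by_contra hy0
    let ρ : Q →* AddMonoid.End (MonoidAlgebra k G) :=
      { toFun := fun q => AddMonoidHom.mulLeft (of k G q.1)
        map_one' := by
          ext m : 1
          change of k G 1 * m = m
          rw [map_one, one_mul]
        map_mul' := fun q q' => by
          ext m : 1
          change of k G (q.1 * q'.1) * m = of k G q.1 * (of k G q'.1 * m)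
          rw [map_mul, mul_assoc] }
    have hρ : ∀ (q : Q) m, ρ q m = of k G q.1 * m := fun q m => rfl
    let W : AddSubgroup (MonoidAlgebra k G) := (AddMonoidHom.mulLeft y).range
    have hchar : ∀ v : MonoidAlgebra k G, p • v = 0 := by
      intro v
      rw [← Nat.cast_smul_eq_nsmul k p v, CharP.cast_eq_zero, zero_smul]
    obtain ⟨w, hw, hw0, hwf⟩ := exists_fixed_vector hQ hchar ρ W (by
      rintro q _ ⟨m, rfl⟩
      refine ⟨of k G q.1 * m, ?_⟩
      rw [hρ]
      change y * (of k G q.1 * m) = of k G q.1 * (y * m)
      rw [← mul_assoc, ← mul_assoc, hyc q.1 q.2]) y ⟨1, mul_one y⟩ hy0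
    -- `w = N * w'`
    obtain ⟨m, hm⟩ := hw
    change y * m = w at hm
    have hyw : y * w = w := by rw [← hm, ← mul_assoc, hyy]
    -- choose representatives of the right cosets of `Q`
    let r : G → G := fun g => (Quotient.out (QuotientGroup.mk (s := Q) g⁻¹))⁻¹
    have hr : ∀ g, r g * g⁻¹ ∈ Q := by
      intro g
      have h1 : (QuotientGroup.mk (s := Q) (Quotient.out (QuotientGroup.mk (s := Q) g⁻¹))) =
          QuotientGroup.mk g⁻¹ := QuotientGroup.out_eq' _
      rw [QuotientGroup.eq] at h1
      exact h1
    have hr' : ∀ g, ∀ q ∈ Q, r (q * g) = r g := by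
      intro g q hq
      simp only [r]
      congr 2
      rw [QuotientGroup.eq]
      simpa using hq
    let w' : MonoidAlgebra k G := trunc k {g | r g = g} w
    have hwc : ∀ q ∈ Q, ∀ g, w.coeff (q⁻¹ * g) = w.coeff g := by
      intro q hq g
      have := hwf ⟨q, hq⟩
      rw [hρ] at this
      conv_rhs => rw [← this]
      rw [coeff_of_mul]
    have hww : w = N * w' := by
      ext g
      rw [coeff_mul_sum']
      simp only [hNc]
      rw [Finset.sum_eq_single (r g)]
      · have h1 : g * (r g)⁻¹ ∈ Q := by
          have := inv_mem (hr g)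
          simpa using this
        rw [if_pos h1, one_mul, coeff_trunc_of_mem]
        · have := hwc _ h1 g
          rw [← this]
          congr 1
          group
        · change r (r g) = r g
          have : r g = (r g * g⁻¹) * g := by group
          conv_lhs => rw [this]
          exact hr' g _ (hr g)
      · intro z _ hz
        by_cases h1 : r z = z
        · rw [if_neg, zero_mul]
          intro h2
          apply hz
          have h3 := hr' z (g * z⁻¹) h2
          rw [inv_mul_cancel_right] at h3
          rw [h3, h1]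
        · rw [coeff_trunc_of_notMem (x := z) (by exact h1), mul_zero]
      · intro h
        exact absurd (Finset.mem_univ _) h
    apply hw0
    rw [← hyw, hww, ← mul_assoc, hyN, zero_mul]
  have hxN : x * N = s • N := key x hs hcomm
  have hss : s * s = s := by
    have h1 : x * (x * N) = x * N := by rw [← mul_assoc, hx]
    rw [hxN, mul_smul_comm, hxN, smul_smul] at h1
    by_contra h
    have h2 : (s * s - s) • N = 0 := by rw [sub_smul, h1, sub_self]
    rcases smul_eq_zero.1 h2 with h3 | h3
    · exact h (sub_eq_zero.1 h3)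
    · exact hN0 h3
  have hs01 : s = 0 ∨ s = 1 := by
    have h1 : s * (s - 1) = 0 := by rw [mul_sub, hss, mul_one, sub_self]
    rcases mul_eq_zero.1 h1 with h2 | h2
    · exact Or.inl h2
    · exact Or.inr (sub_eq_zero.1 h2)
  rcases hs01 with h | h
  · left
    apply kill x hx hcomm
    rw [hxN, h, zero_smul]
  · right
    have h1 : 1 - x = 0 := by
      apply kill (1 - x)
      · rw [sub_mul, mul_sub, mul_sub, hx]
        simp
      · intro q hq
        rw [mul_sub, sub_mul, hcomm q hq]
        simp
      · rw [sub_mul, one_mul, hxN, h, one_smul, sub_self]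
    exact (sub_eq_zero.1 h1).symm

end

end Pool.Agent.TH12.Blk
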